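import Pool.Agent.Q67.TG.NDat
import Pool.Agent.Q67.TK.LarsenT

/-!
# Extension of the coefficients
-/

set_option autoImplicit false
set_option linter.unusedSectionVars false

open CategoryTheory AlgebraicGeometry TensorProduct

universe u v

namespace Pool.Agent.Q67.TG

open Pool.Agent.H914 Pool.Agent.H914.VarClass Pool.Agent.H914.VarClass.Obj
  Pool.Agent.H914.WeilCohomology
open Pool.Agent.Y133.Half hiding prj extOp_xp
open Pool.Agent.Q67.Det Pool.Agent.Q67.TK
open Pool.Agent.Y121.AH
open scoped Matrix

variable {k : Type u} [Field k] {𝒱 : VarClass k} {ops : CycleOps 𝒱}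
  {W : WeilCohomology.{u, 0} ops} {L : Type} [Field L] [Algebra W.K L] {X Y Z : 𝒱.Obj}

lemma em_tenL : ∀ {m : ℕ} (x : Fin (m + 1) → W.H X),
    em W L (ten W X m x) = ten (baseW W L) X m (fun i => em W L (x i))
  | 0, x => rfl
  | m + 1, x => by
    have h1 : em W L (ten W X (m + 1) x) =
        em W L (W.map (fst (pw X m) X) (ten W X m (Fin.init x)) *
          W.map (snd (pw X m) X) (x (Fin.last (m + 1)))) := rfl
    have h2 : em W L (W.map (fst (pw X m) X) (ten W X m (Fin.init x)) *
          W.map (snd (pw X m) X) (x (Fin.last (m + 1)))) =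
        (baseW W L).map (fst (pw X m) X) (em W L (ten W X m (Fin.init x))) *
          (baseW W L).map (snd (pw X m) X) (em W L (x (Fin.last (m + 1)))) := by
      rw [em_mul, ← em_map, ← em_map]
    rw [h1]
    refine h2.trans ?_
    rw [em_tenL]
    rfl

lemma em_sumL {ι : Type*} (s : Finset ι) (f : ι → W.H X) :
    em W L (∑ i ∈ s, f i) = ∑ i ∈ s, em W L (f i) := by
  classical
  induction s using Finset.induction_on with
  | empty => simp [em_zero]
  | insert a s ha ih => rw [Finset.sum_insert ha, Finset.sum_insert ha, em_add, ih]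

section Coord

variable {B : Type} [Fintype B] [DecidableEq B] (L) (v : Module.Basis B W.K (W.H X))

/-- the basis of the cohomology with coefficients in `L` -/
noncomputable def vL : Module.Basis B (baseW W L).K ((baseW W L).H X) :=
  (v.baseChange L : Module.Basis B L (L ⊗[W.K] W.H X))

lemma vL_apply (b : B) : vL L v b = em W L (v b) := Module.Basis.baseChange_apply L v b

/-- a tensor with coefficients in `K` as a tensor with coefficients in `L` -/
def mpL {n : ℕ} (F : (Fin n → B) → W.K) : (Fin n → B) → (baseW W L).K := mp L F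

lemma em_PPL {m : ℕ} (F : (Fin (m + 1) → B) → W.K) :
    em W L (PP v (Det.prj X m) F) = PP (vL L v) (Det.prj X m) (mpL L F) := by
  rw [PP_prj, PP_prj, em_sumL]
  refine Finset.sum_congr rfl fun I _ => ?_
  rw [em_smul, em_tenL]
  simp only [vL_apply]
  rfl

variable {L v}

/-- a class with extended coefficients -/
def toHL (x : L ⊗[W.K] W.H X) : (baseW W L).H X := x

lemma mem_base {S : Sys W} {x : (baseW W L).H X} :
    x ∈ (S.base L).C X ↔ x ∈ Submodule.span (baseW W L).K (em W L '' (S.C X : Set (W.H X))) := by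
  constructor
  · intro h
    refine base_induction (P := fun x : L ⊗[W.K] W.H X => toHL (L := L) x ∈
      Submodule.span (baseW W L).K (em W L '' (S.C X : Set (W.H X)))) ?_ ?_ ?_ h
    · exact Submodule.zero_mem _
    · intro x y hx hy; exact Submodule.add_mem _ hx hy
    · intro l a ha
      have h1 : toHL (L := L) (l ⊗ₜ[W.K] a) = (show (baseW W L).K from l) • em W L a := by
        change l ⊗ₜ[W.K] a = l • ((1 : L) ⊗ₜ[W.K] a)
        rw [TensorProduct.smul_tmul', smul_eq_mul, mul_one]
      rw [h1]
      exact Submodule.smul_mem _ _ (Submodule.subset_span ⟨a, ha, rfl⟩)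
  · intro h
    refine (Submodule.span_le.2 ?_ : _ ≤ (S.base L).C X) h
    rintro _ ⟨a, ha, rfl⟩
    exact Submodule.tmul_mem_baseChange_of_mem (1 : L) ha

/-- the tensors of the extended system -/
noncomputable def CsL (L : Type) [Field L] [Algebra W.K L] (S : Sys W)
    (v : Module.Basis B W.K (W.H X)) (n : ℕ) : Submodule L ((Fin n → B) → L) :=
  Cs (S.base L) (vL L v) n

lemma mem_CsL {S : Sys W} {n : ℕ} {F : (Fin n → B) → L} :
    F ∈ CsL L S v n ↔ (show (Fin n → B) → (baseW W L).K from F) ∈ Cs (S.base L) (vL L v) n :=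
  Iff.rfl

/-- **The tensors of the extended system.** -/
theorem Cs_base [Algebra W.K ℂ] [Algebra L ℂ] [IsScalarTower W.K L ℂ] {S : Sys W} (n : ℕ) : CsL L S v n = mpS L (Cs S v n) := by
  cases n with
  | zero =>
    ext F
    constructor
    · intro _
      have h1 : F = (F Fin.elim0) • mp L (fun _ : Fin 0 → B => (1 : W.K)) := by
        funext I
        rw [Pi.smul_apply, mp, map_one, smul_eq_mul, mul_one]
        exact congrArg F (Subsingleton.elim _ _)
      rw [h1]
      exact Submodule.smul_mem _ _ (mp_mem (mem_Cs_zero _))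
    · intro _; exact mem_Cs_zero _
  | succ m =>
    apply le_antisymm
    · intro F hF
      rw [mem_CsL, mem_Cs_succ, mem_base] at hF
      have h1 : ∃ G ∈ mpS L (Cs S v (m + 1)), PP (vL L v) (Det.prj X m) G =
          PP (vL L v) (Det.prj X m) (show (Fin (m + 1) → B) → (baseW W L).K from F) := by
        generalize PP (vL L v) (Det.prj X m) (show (Fin (m + 1) → B) → (baseW W L).K from F) = x
          at hF
        induction hF using Submodule.span_induction with
        | mem x hx =>
          obtain ⟨c, hc, rfl⟩ := hx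
          obtain ⟨G, rfl⟩ := PP_surj v c
          refine ⟨mp L G, mp_mem (mem_Cs_succ.2 hc), ?_⟩
          rw [em_PPL]
          rfl
        | zero => exact ⟨0, Submodule.zero_mem _, PP_zero _⟩
        | add x y _ _ hx hy =>
          obtain ⟨G, hG, hGx⟩ := hx
          obtain ⟨G', hG', hGy⟩ := hy
          refine ⟨G + G', Submodule.add_mem _ hG hG', ?_⟩
          rw [← hGx, ← hGy]
          exact PP_add (W := baseW W L) _ _ _
        | smul r x _ hx =>
          obtain ⟨G, hG, hGx⟩ := hx
          refine ⟨(show L from r) • G, Submodule.smul_mem _ _ hG, ?_⟩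
          rw [← hGx]
          exact PP_smul (W := baseW W L) _ _ _
      obtain ⟨G, hG, hGF⟩ := h1
      have h2 : (show (Fin (m + 1) → B) → (baseW W L).K from G) = F := PP_inj (vL L v) hGF
      rw [← h2]
      exact hG
    · refine Submodule.span_le.2 ?_
      rintro _ ⟨F, hF, rfl⟩
      change (mpL L F) ∈ Cs (S.base L) (vL L v) (m + 1)
      rw [mem_Cs_succ, ← em_PPL]
      exact Submodule.tmul_mem_baseChange_of_mem (1 : L) (mem_Cs_succ.1 hF)

end Coord

section Ops

/-- the extension of a linear map -/
noncomputable def bcE (L : Type) [Field L] [Algebra W.K L] (φ : W.H X →ₗ[W.K] W.H Y) :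
    (baseW W L).H X →ₗ[(baseW W L).K] (baseW W L).H Y := φ.baseChange L

lemma bcE_em (φ : W.H X →ₗ[W.K] W.H Y) (x : W.H X) :
    bcE L φ (em W L x) = em W L (φ x) := LinearMap.baseChange_tmul _ _ _

lemma op_base {S : Sys W} {φ : W.H X →ₗ[W.K] W.H Y} (h : φ ∈ S.Op X Y) :
    bcE L φ ∈ (S.base L).Op X Y := by
  obtain ⟨c, hc, rfl⟩ := Sys.mem_Op.1 h
  refine Sys.mem_Op.2 ⟨em W L c, Submodule.tmul_mem_baseChange_of_mem (1 : L) hc, ?_⟩
  exact corrOp_base (L := L) (W.map (fst X Y)) (W.push (snd X Y)) c

/-- Linear maps on the extended cohomology are determined on the classes with coefficients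
in `K`. -/
lemma em_ext {M : Type*} [AddCommGroup M] [Module (baseW W L).K M]
    {φ ψ : (baseW W L).H X →ₗ[(baseW W L).K] M} (h : ∀ x : W.H X, φ (em W L x) = ψ (em W L x)) :
    φ = ψ := by
  refine LinearMap.ext fun x => ?_
  refine tmul_induction (P := fun x : L ⊗[W.K] W.H X => φ (toHL x) = ψ (toHL x)) ?_ ?_ ?_ x
  · exact (map_zero φ).trans (map_zero ψ).symm
  · intro x y hx hy
    exact (map_add φ _ _).trans ((congrArg₂ (· + ·) hx hy).trans (map_add ψ _ _).symm)
  · intro l a
    have h1 : toHL (L := L) (l ⊗ₜ[W.K] a) = (show (baseW W L).K from l) • em W L a := by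
      change l ⊗ₜ[W.K] a = l • ((1 : L) ⊗ₜ[W.K] a)
      rw [TensorProduct.smul_tmul', smul_eq_mul, mul_one]
    rw [h1, map_smul, map_smul, h]

lemma odd_base [CharZero W.K] [CharZero (baseW W L).K] :
    bcE L (oddP W X) = oddP (baseW W L) X := by
  refine em_ext fun x => ?_
  rw [bcE_em]
  refine gr_induction (W.isInternal X) (p := fun x =>
    em W L (oddP W X x) = oddP (baseW W L) X (em W L x)) ?_ ?_ x
  · intro i x hx
    rw [oddP_apply (PH.of hx), oddP_apply (PH.of (em_gr (L := L) hx))]
    split_ifs
    · rfl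
    · exact em_zero
  · intro a b ha hb
    rw [em_add, map_add, map_add, em_add, ha, hb]

lemma bcE_inj {φ : W.H X →ₗ[W.K] W.H Y} (h : Function.Injective φ) :
    Function.Injective (bcE L φ) :=
  Module.Flat.lTensor_preserves_injective_linearMap (M := L) φ h

end Ops

/-- The extension of the coefficients of an injective operator and the odd projector. -/
noncomputable def NDat.base [CharZero W.K] [CharZero (baseW W L).K] {S : Sys W}
    (P : NDat W S X) : NDat (baseW W L) (S.base L) X where
  uu := bcE L P.uu
  mem := op_base P.mem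
  odd := by rw [← odd_base]; exact op_base P.odd
  inj := bcE_inj P.inj

end Pool.Agent.Q67.TG
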