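import Pool.Agent.Q67.TL.Lie
import Pool.Agent.Q67.TG.Main5

/-!
# The extension of the coefficients of a system of classes with a polarisation
-/

set_option autoImplicit false
set_option linter.unusedSectionVars false

open CategoryTheory AlgebraicGeometry TensorProduct

universe u v

namespace Pool.Agent.Q67.TG

open Pool.Agent.H914 Pool.Agent.H914.VarClass Pool.Agent.H914.VarClass.Obj
  Pool.Agent.H914.WeilCohomology
open Pool.Agent.Y133.Half hiding prj extOp_xp
open Pool.Agent.Q67.Det Pool.Agent.Q67.TK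
open Pool.Agent.Y121.AH
open scoped Matrix

variable {k : Type u} [Field k] {𝒱 : VarClass k} {ops : CycleOps 𝒱}

section gen

variable {W : WeilCohomology.{u, v} ops} {X Y Z : 𝒱.Obj}

/-- An operator is given by a class of a system if and only if its tensor is a tensor of the
system. -/
lemma NDat.op_iff {S : Sys W} (P : NDat W S X) [CharZero W.K] {R : Sys W}
    (hSR : ∀ Z, S.C Z ≤ R.C Z) {n : ℕ} {v : Module.Basis (Fin n) W.K (W.H X)} {d : Fin n → ℕ}
    (hd : ∀ b, v b ∈ W.gr X (d b)) (Y : Module.End W.K (W.H X)) :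
    t2 (mt v Y * (qM v P.uu)⁻¹) ∈ Cs R v 2 ↔ Y ∈ R.Op X X := by
  have hκ : t2 (qM v P.uu)⁻¹ ∈ Cs R v 2 := fun Z f =>
    hSR Z (kap_mem hd P.mem P.q_kap Z f)
  have key : ∀ φ : Module.End W.K (W.H X), φ ∈ R.Op X X →
      t2 (mt v φ * (qM v P.uu)⁻¹) ∈ Cs R v 2 := by
    intro φ hφ
    have h2 := Cs_gM (v := v) (φ := ![φ, 1]) (S := R) (fun i => by
      fin_cases i
      · exact hφ
      · exact Sys.Op.id) hκ
    have h3 : (fun i : Fin 2 => mt v ((![φ, 1] : Fin 2 → Module.End W.K (W.H X)) i)) =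
        ![mt v φ, 1] := by
      funext i
      fin_cases i
      · rfl
      · exact mt_one
    rw [h3, gM_t2] at h2
    exact h2
  refine ⟨fun hY => ?_, key Y⟩
  set L : R.Op X X →ₗ[W.K] Cs R v 2 :=
    { toFun := fun φ => ⟨t2 (mt v (φ : Module.End W.K (W.H X)) * (qM v P.uu)⁻¹), key φ φ.2⟩
      map_add' := fun φ ψ => by
        apply Subtype.ext
        change t2 (mt v ((φ : Module.End W.K (W.H X)) + ψ) * (qM v P.uu)⁻¹) = _
        rw [mt, map_add, Matrix.add_mul]
        rfl
      map_smul' := fun c φ => by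
        apply Subtype.ext
        change t2 (mt v (c • (φ : Module.End W.K (W.H X))) * (qM v P.uu)⁻¹) = _
        rw [mt, map_smul, Matrix.smul_mul]
        rfl } with hL
  have hcan : ∀ φ ψ : Module.End W.K (W.H X),
      t2 (mt v φ * (qM v P.uu)⁻¹) = t2 (mt v ψ * (qM v P.uu)⁻¹) → φ = ψ := by
    intro φ ψ h
    have h1 := congrArg (· * qM v P.uu) (t2_injective h)
    simp only [Matrix.mul_assoc, mul_eq_one_comm.1 P.q_kap, Matrix.mul_one] at h1
    exact mt_inj h1
  have hinj : Function.Injective L := fun φ ψ h =>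
    Subtype.ext (hcan _ _ (congrArg Subtype.val h))
  have hfr : Module.finrank W.K (R.Op X X) = Module.finrank W.K (Cs R v 2) := by
    have h1 : Module.finrank W.K (R.Op X X) = Module.finrank W.K (R.C (X.prod X)) := by
      symm
      refine LinearEquiv.finrank_eq (LinearEquiv.ofBijective (R.corrS X X)
        ⟨fun c c' h => Subtype.ext (corr_ext (congrArg Subtype.val h)), Sys.corrS_surjective⟩)
    rw [h1]
    exact (finrank_Cs (v := v) (S := R) (m := 1)).symm
  have hsurj : Function.Surjective L := by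
    have h1 : Module.finrank W.K (LinearMap.range L) = Module.finrank W.K (Cs R v 2) := by
      rw [LinearMap.finrank_range_of_inj hinj, hfr]
    exact LinearMap.range_eq_top.1 (Submodule.eq_top_of_finrank_eq h1)
  obtain ⟨φ, hφ⟩ := hsurj ⟨_, hY⟩
  have h1 := hcan _ _ (congrArg Subtype.val hφ)
  rw [← h1]
  exact φ.2

lemma sys_ext {S S' : Sys W} (h : ∀ Z, S.C Z = S'.C Z) : S = S' := by
  obtain ⟨C, _, _, _, _, _⟩ := S
  obtain ⟨C', _, _, _, _, _⟩ := S'
  obtain rfl : C = C' := funext h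
  rfl

end gen

section bc

variable {W : WeilCohomology.{u, 0} ops} (L : Type) [Field L] [Algebra W.K L] {X Y Z : 𝒱.Obj}

/-- The classes of the extended system. -/
noncomputable def bcPred (Q : ClassPred W) : ClassPred (baseW W L) where
  P X j c := c ∈ (Q.sys.base L).C X ∧ c ∈ (baseW W L).gr X (2 * j)
  gr h := h.2
  zero := ⟨Submodule.zero_mem _, Submodule.zero_mem _⟩
  add ha hb := ⟨Submodule.add_mem _ ha.1 hb.1, Submodule.add_mem _ ha.2 hb.2⟩
  smul r _ h := ⟨Submodule.smul_mem _ r h.1, Submodule.smul_mem _ r h.2⟩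
  cl hz := ⟨Submodule.tmul_mem_baseChange_of_mem (1 : L) (ClassPred.sp_of (Q := Q) (Q.cl hz)),
    (baseW W L).cl_mem hz⟩
  mul ha hb := ⟨(Q.sys.base L).mul ha.1 hb.1, by
    rw [mul_add]; exact (baseW W L).mul_mem ha.2 hb.2⟩
  map f _ _ h := ⟨(Q.sys.base L).map f h.1, (baseW W L).map_mem f h.2⟩
  push {X Y} f {j l} hl {a} h := ⟨(Q.sys.base L).push f h.1, push_gr f hl h.2⟩

variable {L} {Q : ClassPred W}

lemma bcPred_of {j : ℕ} {c : W.H X} (h : Q.P X j c) : (bcPred L Q).P X j (em W L c) :=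
  ⟨Submodule.tmul_mem_baseChange_of_mem (1 : L) (ClassPred.sp_of (Q := Q) h), em_gr (Q.gr h)⟩

lemma bcPred_sys : (bcPred L Q).sys = Q.sys.base L := by
  refine sys_ext fun Z => le_antisymm (Submodule.span_le.2 ?_) ?_
  · rintro c ⟨j, hc⟩
    exact hc.1
  · intro c hc
    rw [mem_base] at hc
    refine (Submodule.span_le.2 ?_ : _ ≤ (bcPred L Q).sys.C Z) hc
    rintro _ ⟨x, hx, rfl⟩
    refine ClassPred.sp_ind (Q := Q) (q := fun x => em W L x ∈ (bcPred L Q).sys.C Z) ?_ ?_ ?_ hx
    · intro j x hx; exact ClassPred.sp_of (Q := bcPred L Q) (bcPred_of hx)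
    · rw [em_zero]; exact Submodule.zero_mem _
    · intro a b ha hb; rw [em_add]; exact Submodule.add_mem _ ha hb

lemma bcPred_dim (Z : 𝒱.Obj) : dimBy (baseW W L) (bcPred L Q).P Z = dimBy W Q.P Z := by
  rw [ClassPred.dimBy_eq, ClassPred.dimBy_eq, bcPred_sys, Sys.finrank_base]

/-- a class predicate contains the extended system if it contains its classes -/
lemma bcPred_le {R : ClassPred (baseW W L)}
    (h : ∀ {Z : 𝒱.Obj} {j : ℕ} {c : W.H Z}, Q.P Z j c → R.P Z j (em W L c)) {Z : 𝒱.Obj} {j : ℕ}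
    {c : (baseW W L).H Z} (hc : (bcPred L Q).P Z j c) : R.P Z j c := by
  have h1 : c ∈ R.sys.C Z := by
    have h2 := hc.1
    rw [mem_base] at h2
    refine (Submodule.span_le.2 ?_ : _ ≤ R.sys.C Z) h2
    rintro _ ⟨x, hx, rfl⟩
    refine ClassPred.sp_ind (Q := Q) (q := fun x => em W L x ∈ R.sys.C Z) ?_ ?_ ?_ hx
    · intro j x hx; exact ClassPred.sp_of (Q := R) (h hx)
    · rw [em_zero]; exact Submodule.zero_mem _
    · intro a b ha hb; rw [em_add]; exact Submodule.add_mem _ ha hb
  have h3 := ClassPred.sp_proj (Q := R) h1 j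
  rwa [proj_same _ hc.2] at h3

/-- the matrix of the form with coefficients in `L` -/
noncomputable def qL (L : Type) [Field L] [Algebra W.K L] {n : ℕ}
    (v : Module.Basis (Fin n) W.K (W.H X)) (uu : Module.End W.K (W.H X)) :
    Matrix (Fin n) (Fin n) L := qM (vL L v) (bcE L uu)

lemma qL_eq {n : ℕ} (v : Module.Basis (Fin n) W.K (W.H X)) (uu : Module.End W.K (W.H X)) :
    qL L v uu = (qM v uu).map (algebraMap W.K L) := by
  ext a b
  change (baseW W L).tr X (vL L v a * bcE L uu (vL L v b)) =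
    algebraMap W.K L (W.tr X (v a * uu (v b)))
  rw [vL_apply, vL_apply, bcE_em, ← em_mul]
  exact em_tr _

lemma kap_base {n : ℕ} {v : Module.Basis (Fin n) W.K (W.H X)} {uu : Module.End W.K (W.H X)}
    (h : qM v uu * (qM v uu)⁻¹ = 1) :
    (qL L v uu)⁻¹ = ((qM v uu)⁻¹).map (algebraMap W.K L) := by
  refine Matrix.inv_eq_right_inv ?_
  rw [qL_eq, ← Matrix.map_mul, h]
  ext i j
  rw [Matrix.map_apply, Matrix.one_apply, Matrix.one_apply]
  split_ifs <;> simp

end bc

section pol

variable {T : HodgeTheory ops} {X : 𝒱.Obj} {S : Sys T.W}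

lemma PolData.inj (P : PolData T S X) : Function.Injective P.uu := by
  obtain ⟨n, v, d, hd⟩ := exists_homog_basis T.W X
  have hdet := P.det_ne (v := v)
  rw [← LinearMap.ker_eq_bot, LinearMap.ker_eq_bot']
  intro x hx
  have h1 : (qM v P.uu).mulVec (v.repr x) = 0 := by
    funext a
    have h2 : ∑ b, v.repr x b • P.uu (v b) = 0 := by
      have h4 := congrArg P.uu (v.sum_repr x)
      rw [hx, map_sum] at h4
      simpa only [map_smul] using h4
    have h3 := congrArg (fun y => T.W.tr X (v a * y)) h2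
    simp only [Finset.mul_sum, mul_smul_comm, map_sum, map_smul, smul_eq_mul, mul_zero,
      map_zero] at h3
    rw [Pi.zero_apply, ← h3, Matrix.mulVec, dotProduct]
    exact Finset.sum_congr rfl fun b _ => mul_comm _ _
  have h2 := Matrix.eq_zero_of_mulVec_eq_zero hdet h1
  have h3 : v.repr x = 0 := Finsupp.ext fun b => congrFun h2 b
  exact (v.repr.map_eq_zero_iff).1 h3

/-- The data without the polarisation. -/
noncomputable def PolData.ndat (P : PolData T S X) : NDat T.W S X where
  uu := P.uu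
  mem := P.mem
  odd := P.odd
  inj := P.inj

end pol

end Pool.Agent.Q67.TG
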