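import Mathlib

/-!
# Semisimplicity, commutation and derivations: definitions in linear algebra
-/

namespace Pool.Agent.Q67.TL.F

variable {L H G E : Type} [Field L] [AddCommGroup H] [Module L H] [AddCommGroup G] [Module L G]
  [AddCommGroup E] [Module L E]

/-- Every subspace which is stable under the operators in `S` has a complement which is stable
under these operators. -/
def Complemented (S : Set (Module.End L H)) : Prop :=
  ∀ U : Submodule L H, (∀ φ ∈ S, ∀ x ∈ U, φ x ∈ U) →
    ∃ U', IsCompl U U' ∧ ∀ φ ∈ S, ∀ x ∈ U', φ x ∈ U'

/-- The operator `A` commutes with all operators with the property `P`. -/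
def CommutesWith (P : Module.End L H → Prop) (A : Module.End L H) : Prop :=
  ∀ φ, P φ → A * φ = φ * A

/-- The operator `A` is skew-symmetric with respect to the pairing `t (x · y)`. -/
def SkewFor (m : H → H → H) (t : H → L) (A : Module.End L H) : Prop :=
  ∀ x y, t (m (A x) y) = -t (m x (A y))

/-- The operator `φ` is `a ↦ s (z · p a)` for a linear combination `z` of elements of `S`. -/
def GivenBy (p : H → G) (m : G → G → G) (s : G → H) (S : Set G) (φ : Module.End L H) : Prop :=
  ∃ z ∈ Submodule.span L S, ∀ a, φ a = s (m z (p a))

/-- The Leibniz rule for the product `a × b` of elements of `G` and `H`: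
`D' (a × b) = D a × b + a × A b`. -/
def LeibnizFor (c : G → H → E) (D : Module.End L G) (A : Module.End L H) (D' : Module.End L E) :
    Prop :=
  ∀ a b, D' (c a b) = c (D a) b + c a (A b)

end Pool.Agent.Q67.TL.F
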