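import Pool.Agent.Q67.TG.FDefs
import Pool.Agent.Q67.TL.GenDefs

/-!
# Infinitesimal Galois actions and Tate classes: definitions

`Pool.Agent.Y121.AHS.HodgeTheory` is a Weil cohomology with rational coefficients together with a
Hodge decomposition of its cohomology with complex coefficients. `HL T.W L X` is the cohomology of
`X` with coefficients extended to `L`, with the product `mulL`, the pull-back `mapL`, the
push-forward `pushL` and the trace `trL`.
-/

open CategoryTheory AlgebraicGeometry

universe u

namespace Pool.Agent.Q67.TL.F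

open Pool.Agent.H914 Pool.Agent.H914.VarClass Pool.Agent.H914.VarClass.Obj
  Pool.Agent.H914.WeilCohomology
open Pool.Agent.Y133.Half (pw algSet algDim HasIndex AtMostHalf)
open Pool.Agent.Y121.AHS

variable {k : Type u} [Field k] {𝒱 : VarClass k} {ops : CycleOps 𝒱}
  {T : HodgeTheory ops} {L : Type} [Field L] [Algebra T.W.K L]

/-- The operators on the cohomology of `X` with coefficients in `L`. -/
abbrev OpL (T : HodgeTheory ops) (L : Type) [Field L] [Algebra T.W.K L] (X : 𝒱.Obj) : Type :=
  Module.End L (HL T.W L X)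

/-- Operators on the cohomology of all varieties with coefficients in `L`. -/
abbrev Ops (T : HodgeTheory ops) (L : Type) [Field L] [Algebra T.W.K L] := ∀ X : 𝒱.Obj, OpL T L X

/-- The operators `D X` preserve the degrees, are derivations of the cohomology rings, commute with
pull-backs, have images of trace zero, and kill the classes of algebraic cycles. -/
structure IsInf (D : Ops T L) : Prop where
  deg : ∀ X i x, IsDeg i x → IsDeg i (D X x)
  mul : ∀ X x y, D X (mulL x y) = mulL (D X x) y + mulL x (D X y)
  map : ∀ (X Y : 𝒱.Obj) (f : X ⟶ Y) y, D X (mapL f y) = mapL f (D Y y)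
  tr : ∀ X x, trL (D X x) = 0
  cyc : ∀ (X : 𝒱.Obj) j z, X.IsCyc j z → D X (emL T.W L (T.W.cl X z)) = 0

/-- The classes of even degree on `Z` with coefficients in `L` which are killed by the operators
in `𝔞`. -/
def tateSet (𝔞 : Set (Ops T L)) (Z : 𝒱.Obj) : Set (HL T.W L Z) :=
  {c | (∃ j, IsDeg (2 * j) c) ∧ ∀ D ∈ 𝔞, D Z c = 0}

/-- The classes of algebraic cycles on `Z`. -/
def algL (T : HodgeTheory ops) (L : Type) [Field L] [Algebra T.W.K L] (Z : 𝒱.Obj) :
    Set (HL T.W L Z) :=
  {x | ∃ c ∈ algSet T.W Z, emL T.W L c = x}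

/-- All Tate classes on `Z` are linear combinations of classes in `S`. -/
def TateIn (𝔞 : Set (Ops T L)) (Z : 𝒱.Obj) (S : Set (HL T.W L Z)) : Prop :=
  ∀ c ∈ tateSet 𝔞 Z, c ∈ Submodule.span L S

/-- All Tate classes on `Z` are linear combinations of classes of algebraic cycles. -/
def TateConj (𝔞 : Set (Ops T L)) (Z : 𝒱.Obj) : Prop := TateIn 𝔞 Z (algL T L Z)

/-- The dimension of the space of the Tate classes. -/
noncomputable def tateDim (𝔞 : Set (Ops T L)) (Z : 𝒱.Obj) : ℕ := Set.finrank L (tateSet 𝔞 Z)

/-- The quotients of the dimension of the space of the Tate classes on the product of `n + 1`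
copies of `X` by the dimension of the space of the algebraic classes converge to `N`. -/
def IndexIs (𝔞 : Set (Ops T L)) (X : 𝒱.Obj) (N : ℕ∞) : Prop :=
  HasIndex (fun n => tateDim 𝔞 (pw X n)) (fun n => algDim T.W (pw X n)) N

/-- Asymptotically at most one half of the Tate classes on the powers of `X` are algebraic. -/
def HalfOnly (𝔞 : Set (Ops T L)) (X : 𝒱.Obj) : Prop :=
  AtMostHalf (fun n => algDim T.W (pw X n)) fun n => tateDim 𝔞 (pw X n)

/-- The image `pr₂_* (z · pr₁^* c)` of the class `c` on `Y` under the correspondence `z`. -/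
noncomputable def image {Y Z : 𝒱.Obj} (z : HL T.W L (Y.prod Z)) (c : HL T.W L Y) : HL T.W L Z :=
  pushL (snd Y Z) (mulL z (mapL (fst Y Z) c))

/-- The classes of algebraic cycles on `Z` and the images of the classes `c i` under algebraic
correspondences. -/
def gens {r : ℕ} {Y : Fin r → 𝒱.Obj} (c : ∀ i, HL T.W L (Y i)) (Z : 𝒱.Obj) : Set (HL T.W L Z) :=
  {x | x ∈ algL T L Z ∨ ∃ i, ∃ z ∈ algL T L ((Y i).prod Z), image z (c i) = x}

/-- There are `r` Tate classes on powers of `X`, where `r + 1 ≤ N`, such that all Tate classes on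
all powers of `X` are linear combinations of classes of algebraic cycles and of images of these `r`
classes under algebraic correspondences. -/
def Generated (𝔞 : Set (Ops T L)) (X : 𝒱.Obj) (N : ℕ∞) : Prop :=
  ∃ (r : ℕ) (m : Fin r → ℕ) (c : ∀ i, HL T.W L (pw X (m i))), (r : ℕ∞) + 1 ≤ N ∧
    (∀ i, c i ∈ tateSet 𝔞 (pw X (m i))) ∧ ∀ n, TateIn 𝔞 (pw X n) (gens c (pw X n))

/-- The cohomology of `Z` with coefficients in `L` is semisimple under the operators in `𝔞`. -/
def Semisimple (𝔞 : Set (Ops T L)) (Z : 𝒱.Obj) : Prop := Complemented {φ | ∃ D ∈ 𝔞, D Z = φ}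

/-- The operator `φ` is a correspondence given by Tate classes on `X × X`. -/
def IsTateOp (𝔞 : Set (Ops T L)) (X : 𝒱.Obj) (φ : OpL T L X) : Prop :=
  GivenBy (mapL (fst X X)) mulL (pushL (snd X X)) (tateSet 𝔞 (X.prod X)) φ

/-- The operator `A` lies in the centre of the algebra of the operators given by Tate classes. -/
def Central (𝔞 : Set (Ops T L)) (X : 𝒱.Obj) (A : OpL T L X) : Prop :=
  IsTateOp 𝔞 X A ∧ CommutesWith (IsTateOp 𝔞 X) A

/-- No nonzero element of the centre of the algebra of the operators given by Tate classes is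
skew-symmetric. -/
def NoCentralSkew (𝔞 : Set (Ops T L)) (X : 𝒱.Obj) : Prop :=
  ∀ A, Central 𝔞 X A → SkewFor mulL trL A → A = 0

/-- The external product of two classes. -/
noncomputable def crossL {Y X : 𝒱.Obj} (a : HL T.W L Y) (b : HL T.W L X) : HL T.W L (Y.prod X) :=
  mulL (mapL (fst Y X) a) (mapL (snd Y X) b)

/-- The operators `D m` on the cohomology of the product of `m + 1` copies of `X` are the
derivations given by the operator `A`: `D 0 = A` and `D (m + 1) (a × b) = D m a × b + a × A b`. -/
def IsDer (X : 𝒱.Obj) (A : OpL T L X) (D : ∀ m, OpL T L (pw X m)) : Prop :=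
  D 0 = A ∧ ∀ m, LeibnizFor (E := HL T.W L ((pw X m).prod X)) crossL (D m) A (D (m + 1))

/-- The derivations given by the operator `A` kill the classes of algebraic cycles on all powers
of `X`. -/
def KillsAlg (X : 𝒱.Obj) (A : OpL T L X) : Prop :=
  ∀ D, IsDer X A D → ∀ m, ∀ c ∈ algL T L (pw X m), D m c = 0

/-- The derivation given by the operator `A` kills the Tate classes on the product of `m + 1`
copies of `X`. -/
def KillsTate (𝔞 : Set (Ops T L)) (X : 𝒱.Obj) (A : OpL T L X) (m : ℕ) : Prop :=
  ∀ D, IsDer X A D → ∀ c ∈ tateSet 𝔞 (pw X m), D m c = 0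

/-- Every operator which kills the algebraic classes on all powers of `X`, kills the Tate
classes on all powers. -/
def CritAll (𝔞 : Set (Ops T L)) (X : 𝒱.Obj) : Prop :=
  ∀ A, KillsAlg X A → ∀ m, KillsTate 𝔞 X A m

/-- Every operator which kills the algebraic classes on all powers of `X`, kills the Tate
classes on `X^4`. -/
def CritFour (𝔞 : Set (Ops T L)) (X : 𝒱.Obj) : Prop :=
  ∀ A, KillsAlg X A → KillsTate 𝔞 X A 3

/-- Every element of the centre of the algebra of the operators given by Tate classes which
kills the algebraic classes on all powers of `X`, kills the Tate classes on all powers. -/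
def CritCentral (𝔞 : Set (Ops T L)) (X : 𝒱.Obj) : Prop :=
  ∀ A, Central 𝔞 X A → KillsAlg X A → ∀ m, KillsTate 𝔞 X A m

end Pool.Agent.Q67.TL.F
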