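import Pool.Agent.Q67.TL.MasterT2
import Pool.Agent.Q67.TL.FDefs
import Pool.Agent.Q67.TG.FConv

/-!
# Comparison of the definitions
-/

set_option autoImplicit false
set_option linter.unusedSectionVars false

open CategoryTheory AlgebraicGeometry TensorProduct Filter Topology

universe u v w

namespace Pool.Agent.Q67.TG

open Pool.Agent.H914 Pool.Agent.H914.VarClass Pool.Agent.H914.VarClass.Obj
  Pool.Agent.H914.WeilCohomology
open Pool.Agent.Y133.Half hiding prj extOp_xp tateDim
open Pool.Agent.Q67.Det Pool.Agent.Q67.TK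
open Pool.Agent.W458.MF Pool.Agent.W536.RR Pool.Agent.H281R3.HT
open Pool.Agent.Y121 Pool.Agent.Y121.AHS
open Pool.Agent.Q67.TL.F

variable {k : Type u} [Field k] {𝒱 : VarClass k} {ops : CycleOps 𝒱}

section der

variable {V : WeilCohomology.{u, v} ops} {X : 𝒱.Obj}

/-- The Leibniz rule for the derivation. -/
lemma derOp_cross (A : Module.End V.K (V.H X)) (m : ℕ) (a : V.H (pw X m)) (b : V.H X) :
    derOp A (m + 1) (cross V a b) = cross V (derOp A m a) b + cross V a (A b) := by
  set φ : V.H (pw X m) →ₗ[V.K] V.H (pw X (m + 1)) :=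
    { toFun := fun a => derOp A (m + 1) (cross V a b)
      map_add' := fun x y => by
        have h : cross V (x + y) b = cross V x b + cross V y b := by
          simp only [cross, map_add, add_mul]
        rw [h]
        exact map_add (derOp A (m + 1)) _ _
      map_smul' := fun c x => by
        have h : cross V (c • x) b = c • cross V x b := by
          simp only [cross, map_smul, smul_mul_assoc]
        rw [h]
        exact map_smul (derOp A (m + 1)) _ _ } with hφ
  set ψ : V.H (pw X m) →ₗ[V.K] V.H (pw X (m + 1)) :=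
    { toFun := fun a => cross V (derOp A m a) b + cross V a (A b)
      map_add' := fun x y => by
        simp only [cross, map_add, add_mul]
        abel
      map_smul' := fun c x => by
        simp only [cross, map_smul, smul_mul_assoc, RingHom.id_apply]
        exact (smul_add c _ _).symm } with hψ
  have h : φ = ψ := by
    apply pw_ext
    intro d x _
    change derOp A (m + 1) (cross V (ten V X m x) b) =
      cross V (derOp A m (ten V X m x)) b + cross V (ten V X m x) (A b)
    have h1 : cross V (ten V X m x) b =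
        ten V X (m + 1) (Fin.snoc (α := fun _ => V.H X) x b) := by
      rw [ten_succ, Fin.init_snoc, Fin.snoc_last]
      rfl
    have h2 : ∀ y, cross V (ten V X m x) y =
        ten V X (m + 1) (Fin.snoc (α := fun _ => V.H X) x y) := by
      intro y
      rw [ten_succ, Fin.init_snoc, Fin.snoc_last]
      rfl
    rw [h1]
    refine (derOp_ten A _).trans ?_
    refine (Fin.sum_univ_castSucc (n := m + 1) _).trans ?_
    refine congrArg₂ (· + ·) ?_ ?_
    · rw [derOp_ten]
      have h3 : cross V (∑ i, ten V X m (Function.update x i (A (x i)))) b =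
          ∑ i, cross V (ten V X m (Function.update x i (A (x i)))) b := by
        simp only [cross, map_sum, Finset.sum_mul]
      rw [h3]
      refine Finset.sum_congr rfl fun i _ => ?_
      rw [Fin.snoc_castSucc, ← Fin.snoc_update, ten_succ, Fin.init_snoc, Fin.snoc_last]
      rfl
    · rw [Fin.snoc_last, Fin.update_snoc_last, ← h2]
  exact congrArg (fun f => f a) h

end der

section conv

variable {T : AHS.HodgeTheory ops} {L : Type} [Field L] [Algebra T.W.K L] {X Y Z : 𝒱.Obj}

/-- An operator as an operator in the extended theory. -/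
noncomputable def toV (φ : OpL T L X) :
    Module.End (baseW (toH T).W L).K ((baseW (toH T).W L).H X) := φ

/-- An operator in the extended theory. -/
noncomputable def ofV (φ : Module.End (baseW (toH T).W L).K ((baseW (toH T).W L).H X)) :
    OpL T L X := φ

/-- A class as a class in the extended theory. -/
def toC (x : HL T.W L X) : (baseW (toH T).W L).H X := x

lemma map_toC (f : X ⟶ Y) (y : HL T.W L Y) :
    (baseW (toH T).W L).map f (toC y) = toC (mapL f y) :=
  map_eq T.W L f y

/-- The infinitesimal action. -/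
noncomputable def lieOf {𝔞 : Set (Ops T L)} (h : ∀ D ∈ 𝔞, IsInf D) :
    LieAct (baseW (toH T).W L) where
  ι := {D // D ∈ 𝔞}
  op a X := toV (a.1 X)
  gr a X i x hx := (h a.1 a.2).deg X i x hx
  mul a X x y := (h a.1 a.2).mul X x y
  map a X Y f y := by
    have h1 := (h a.1 a.2).map X Y f y
    have h2 := map_toC (T := T) (L := L) f y
    have h3 := map_toC (T := T) (L := L) f (a.1 Y y)
    refine (congrArg (toV (a.1 X)) h2).trans ?_
    exact h1.trans h3.symm
  tr a X x := (h a.1 a.2).tr X x
  cl a X j z hz := (h a.1 a.2).cyc X j z hz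

variable {𝔞 : Set (Ops T L)} (h : ∀ D ∈ 𝔞, IsInf D)

lemma tate_iff {c : HL T.W L Z} :
    c ∈ tateSet 𝔞 Z ↔ ∃ j, (lieOf h).pred.P Z j (toC c) := by
  constructor
  · rintro ⟨⟨j, hj⟩, hc⟩
    exact ⟨j, hj, fun a => hc a.1 a.2⟩
  · rintro ⟨j, hj, hc⟩
    exact ⟨⟨j, hj⟩, fun D hD => hc ⟨D, hD⟩⟩

lemma tateDim_eq (Z : 𝒱.Obj) :
    tateDim 𝔞 Z = dimBy (baseW (toH T).W L) (lieOf h).pred.P Z := by
  have h1 : tateSet 𝔞 Z = {c : HL T.W L Z | ∃ j, (lieOf h).pred.P Z j (toC c)} :=
    Set.ext fun c => tate_iff h
  unfold tateDim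
  rw [h1]
  rfl

/-- a class of the extended theory -/
def ofC (x : (baseW (toH T).W L).H X) : HL T.W L X := x

lemma em_alg {c : T.W.H Z} (hc : c ∈ algSpan T.W Z) :
    ofC (AH.em (toH T).W L c) ∈ Submodule.span L (algL T L Z) := by
  rw [← algSet_span] at hc
  induction hc using Submodule.span_induction with
  | mem x hx => exact Submodule.subset_span ⟨x, hx, rfl⟩
  | zero =>
    have h3 : AH.em (toH T).W L (0 : (toH T).W.H Z) = 0 := AH.em_zero
    have h4 : ofC (AH.em (toH T).W L (0 : (toH T).W.H Z)) ∈
      Submodule.span L (algL T L Z) := by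
      rw [h3]
      exact Submodule.zero_mem _
    exact h4
  | add x y _ _ hx hy =>
    have h3 : AH.em (toH T).W L ((x : (toH T).W.H Z) + y) =
      AH.em (toH T).W L x + AH.em (toH T).W L y := AH.em_add _ _
    have h4 : ofC (AH.em (toH T).W L ((x : (toH T).W.H Z) + y)) ∈
      Submodule.span L (algL T L Z) := by
      rw [h3]
      exact Submodule.add_mem _ hx hy
    exact h4
  | smul r x _ hx =>
    have h3 := AH.em_smul (W := (toH T).W) (L := L) r (show (toH T).W.H Z from x)
    have h4 : ofC (AH.ex (toH T).W L r • AH.em (toH T).W L x) ∈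
      Submodule.span L (algL T L Z) := Submodule.smul_mem _ _ hx
    rw [← h3] at h4
    exact h4

lemma algL_span_iff {c : HL T.W L Z} : c ∈ Submodule.span L (algL T L Z) ↔
    toC c ∈ (bcPred L (algP T)).sys.C Z := by
  rw [bcPred_sys, mem_base]
  have h1 : (algP T).sys.C Z = algSpan T.W Z := algPred_sys (W := T.W) Z
  constructor
  · intro hc
    induction hc using Submodule.span_induction with
    | mem x hx =>
      obtain ⟨c, hc, rfl⟩ := hx
      have h5 : c ∈ algSpan T.W Z := by
        rw [← algSet_span]
        exact Submodule.subset_span hc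
      refine Submodule.subset_span ⟨c, ?_, rfl⟩
      rw [h1]
      exact h5
    | zero => exact Submodule.zero_mem _
    | add x y _ _ hx hy => exact Submodule.add_mem _ hx hy
    | smul r x _ hx => exact Submodule.smul_mem _ _ hx
  · intro hc
    have h2 : ∀ x : (baseW (toH T).W L).H Z, x ∈ Submodule.span (baseW (toH T).W L).K
        (AH.em (toH T).W L '' ((algP T).sys.C Z : Set ((toH T).W.H Z))) →
          ofC x ∈ Submodule.span L (algL T L Z) := by
      intro x hx
      induction hx using Submodule.span_induction with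
      | mem x hx =>
        obtain ⟨c, hc, rfl⟩ := hx
        rw [h1] at hc
        exact em_alg hc
      | zero => exact Submodule.zero_mem _
      | add x y _ _ hx hy => exact Submodule.add_mem _ hx hy
      | smul r x _ hx => exact Submodule.smul_mem _ _ hx
    exact h2 _ hc

lemma algL_of {j : ℕ} {c : (baseW (toH T).W L).H Z} (hc : (bcPred L (algP T)).P Z j c) :
    ofC c ∈ Submodule.span L (algL T L Z) :=
  algL_span_iff.2 (ClassPred.sp_of (Q := bcPred L (algP T)) hc)

/-- The Tate conjecture. -/
lemma tateConj_iff : TateConj 𝔞 Z ↔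
    ∀ j c, (lieOf h).pred.P Z j c → (bcPred L (algP T)).P Z j c := by
  constructor
  · intro hT j c hc
    have h1 : toC (ofC c) ∈ (bcPred L (algP T)).sys.C Z :=
      algL_span_iff.1 (hT _ ((tate_iff h).2 ⟨j, hc⟩))
    refine ⟨?_, hc.1⟩
    rw [bcPred_sys] at h1
    exact h1
  · intro hT c hc
    obtain ⟨j, hj⟩ := (tate_iff h).1 hc
    exact algL_of (hT j _ hj)

lemma image_eq {z : HL T.W L (Y.prod Z)} {c : HL T.W L Y} :
    image z c = ofC ((baseW (toH T).W L).corr (toC z) (toC c)) := by
  have h1 := map_toC (T := T) (L := L) (fst Y Z) c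
  have h2 : (baseW (toH T).W L).corr (toC z) (toC c) = (baseW (toH T).W L).push (snd Y Z)
    (toC z * (baseW (toH T).W L).map (fst Y Z) (toC c)) := rfl
  rw [h2, h1]
  rfl

/-- The generators. -/
lemma generatedT_of {N : ℕ∞}
    (hN : GeneratedOver (baseW (toH T).W L) (bcPred L (algP T)).P (lieOf h).pred.P X N) :
    TL.F.Generated 𝔞 X N := by
  obtain ⟨r, c, hr, hc, hG⟩ := hN
  refine ⟨r, fun i => (c i).1, fun i => ofC (c i).2, hr, fun i => (tate_iff h).2 (hc i),
    fun n x hx => ?_⟩
  obtain ⟨j, hj⟩ := (tate_iff h).1 hx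
  have h1 := hG n j _ hj
  have key : ∀ y : (baseW (toH T).W L).H (pw X n),
      y ∈ genOver (baseW (toH T).W L) (bcPred L (algP T)).P X c n →
      ofC y ∈ Submodule.span L (TL.F.gens (fun i => ofC (c i).2) (pw X n)) := by
    intro y hy
    unfold genOver at hy
    induction hy using Submodule.span_induction with
    | mem y hy =>
      rcases hy with ⟨j, hy⟩ | hy
      · exact Submodule.span_mono (fun z hz => Or.inl hz) (algL_of hy)
      · obtain ⟨i, hi⟩ := Set.mem_iUnion.1 hy
        obtain ⟨j, z, hz, hzy⟩ := hi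
        have h2 := algL_of hz
        have h3 : ofC y = image (ofC z) (ofC (c i).2) := by
          rw [image_eq, ← hzy]
          rfl
        rw [h3]
        clear h3 hzy hz
        generalize ofC z = z at h2
        induction h2 using Submodule.span_induction with
        | mem z hz => exact Submodule.subset_span (Or.inr ⟨i, z, hz, rfl⟩)
        | zero =>
          rw [image_eq]
          have h5 : (baseW (toH T).W L).corr (toC (T := T) (L := L) (0 :
            HL T.W L ((pw X (c i).1).prod (pw X n)))) = 0 := corr_zero _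
          rw [h5]
          exact Submodule.zero_mem _
        | add a b _ _ ha hb =>
          rw [image_eq] at ha hb ⊢
          have h5 : (baseW (toH T).W L).corr (toC (a + b)) = (baseW (toH T).W L).corr (toC a) +
            (baseW (toH T).W L).corr (toC b) := corr_add _ _ _
          rw [h5]
          exact Submodule.add_mem _ ha hb
        | smul l a _ ha =>
          rw [image_eq] at ha ⊢
          have h5 : (baseW (toH T).W L).corr (toC (l • a)) =
            (show (baseW (toH T).W L).K from l) • (baseW (toH T).W L).corr (toC a) :=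
            corr_smul _ _ _
          rw [h5]
          exact Submodule.smul_mem _ _ ha
    | zero => exact Submodule.zero_mem _
    | add x y _ _ hx hy => exact Submodule.add_mem _ hx hy
    | smul r x _ hx => exact Submodule.smul_mem _ _ hx
  exact key _ h1

lemma tateSpan_iff {c : HL T.W L Z} :
    c ∈ Submodule.span L (tateSet 𝔞 Z) ↔ toC c ∈ (lieOf h).pred.sys.C Z := by
  have h1 : tateSet 𝔞 Z = {c : HL T.W L Z | ∃ j, (lieOf h).pred.P Z j (toC c)} :=
    Set.ext fun c => tate_iff h
  rw [h1]
  exact Iff.rfl

lemma givenBy_eq (z : HL T.W L (X.prod X)) (x : HL T.W L X) :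
    pushL (snd X X) (mulL z (mapL (fst X X) x)) =
      ofC ((baseW (toH T).W L).corr (toC z) (toC x)) := image_eq

lemma isTateOp_iff {φ : OpL T L X} :
    IsTateOp 𝔞 X φ ↔ toV φ ∈ (lieOf h).pred.sys.Op X X := by
  rw [Sys.mem_Op]
  constructor
  · rintro ⟨z, hz, hφ⟩
    refine ⟨toC z, (tateSpan_iff h).1 hz, LinearMap.ext fun a => ?_⟩
    have h1 := (hφ (ofC a)).trans (image_eq (T := T) (z := z) (c := ofC a))
    exact h1.symm
  · rintro ⟨z, hz, hφ⟩
    refine ⟨ofC z, (tateSpan_iff h).2 hz, fun a => ?_⟩
    have h1 : φ a = ofC ((baseW (toH T).W L).corr z (toC a)) := by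
      rw [hφ]
      rfl
    exact h1.trans (image_eq (T := T) (z := ofC z) (c := a)).symm

lemma semi_of (hs : Semisimple 𝔞 Z) : (lieOf h).Semi Z := by
  intro U hU
  obtain ⟨U', hc, hs'⟩ := hs (U : Submodule L (HL T.W L Z)) (by
    rintro _ ⟨D, hD, rfl⟩ x hx
    exact hU ⟨D, hD⟩ x hx)
  exact ⟨U', hc, fun a x hx => hs' _ ⟨a.1, a.2, rfl⟩ x hx⟩

lemma crossL_eq (a : HL T.W L Y) (b : HL T.W L X) :
    toC (crossL a b) = cross (baseW (toH T).W L) (toC a) (toC b) := by
  rw [cross, map_toC, map_toC]
  rfl

/-- The derivations given by an operator. -/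
lemma isDer_eq {A : OpL T L X} {D : ∀ m, OpL T L (pw X m)} (hD : TL.F.IsDer X A D) (m : ℕ) :
    toV (D m) = derOp (toV A) m := by
  refine IsDer.eq (W := baseW (toH T).W L) (A := toV A) ?_
  intro x
  induction m with
  | zero =>
    rw [Fin.sum_univ_one, ten_zero, ten_zero, Function.update_self]
    have h1 := hD.1
    exact congrArg (fun φ : OpL T L X => φ (x 0)) h1
  | succ m ih =>
    have h2 : toV (D (m + 1)) (ten (baseW (toH T).W L) X (m + 1) x) =
        cross (baseW (toH T).W L) (toV (D m) (ten (baseW (toH T).W L) X m (Fin.init x)))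
          (x (Fin.last (m + 1))) +
        cross (baseW (toH T).W L) (ten (baseW (toH T).W L) X m (Fin.init x))
          (toV A (x (Fin.last (m + 1)))) := by
      have h3 := hD.2 m (ofC (ten (baseW (toH T).W L) X m (Fin.init x)))
        (ofC (x (Fin.last (m + 1))))
      have h4 := crossL_eq (T := T) (L := L) (ofC (ten (baseW (toH T).W L) X m (Fin.init x)))
        (ofC (x (Fin.last (m + 1))))
      have h5 := crossL_eq (T := T) (L := L)
        (D m (ofC (ten (baseW (toH T).W L) X m (Fin.init x)))) (ofC (x (Fin.last (m + 1))))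
      have h6 := crossL_eq (T := T) (L := L) (ofC (ten (baseW (toH T).W L) X m (Fin.init x)))
        (A (ofC (x (Fin.last (m + 1)))))
      set E : Module.End (baseW (toH T).W L).K
        ((baseW (toH T).W L).H ((pw X m).prod X)) := toV (D (m + 1)) with hE
      exact (congrArg E h4).symm.trans (h3.trans (congrArg₂ (· + ·) h5 h6))
    rw [h2, ih]
    refine Eq.trans ?_ (Fin.sum_univ_castSucc (n := m + 1) _).symm
    refine congrArg₂ (· + ·) ?_ ?_
    · have h3 : ∀ y : Fin (m + 1) → (baseW (toH T).W L).H (pw X m),
          cross (baseW (toH T).W L) (∑ i, y i) (x (Fin.last (m + 1))) =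
          ∑ i, cross (baseW (toH T).W L) (y i) (x (Fin.last (m + 1))) := by
        intro y
        simp only [cross, map_sum, Finset.sum_mul]
      rw [h3]
      refine Finset.sum_congr rfl fun i _ => ?_
      rw [ten_succ, init_upd_cast, Function.update_of_ne (Fin.castSucc_lt_last i).ne']
      rfl
    · rw [ten_succ, init_upd_last, Function.update_self]
      rfl

lemma isDer_derOp (A : OpL T L X) :
    TL.F.IsDer X A fun m => ofV (derOp (toV A) m) := by
  refine ⟨?_, fun m a b => ?_⟩
  · refine LinearMap.ext fun x => ?_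
    have h1 := derOp_ten (toV A) (m := 0) (fun _ => toC x)
    rw [Fin.sum_univ_one, ten_zero, ten_zero, Function.update_self] at h1
    exact h1
  · have h1 := derOp_cross (toV A) m (toC a) (toC b)
    have h4 := crossL_eq (T := T) (L := L) a b
    have h5 := crossL_eq (T := T) (L := L) (ofV (derOp (toV A) m) a) b
    have h6 := crossL_eq (T := T) (L := L) a (A b)
    rw [← h4] at h1
    exact h1.trans (congrArg₂ (· + ·) h5.symm h6.symm)

end conv

end Pool.Agent.Q67.TG
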