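import Pool.Agent.Q67.TL.Bc

/-!
# Derivations acting on a Weil cohomology theory, and the classes which they kill
-/

set_option autoImplicit false
set_option linter.unusedSectionVars false

open CategoryTheory AlgebraicGeometry TensorProduct

universe u v w

namespace Pool.Agent.Q67.TG

open Pool.Agent.H914 Pool.Agent.H914.VarClass Pool.Agent.H914.VarClass.Obj
  Pool.Agent.H914.WeilCohomology
open Pool.Agent.Y133.Half hiding prj extOp_xp
open Pool.Agent.Q67.Det Pool.Agent.Q67.TK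
open scoped Matrix

variable {k : Type u} [Field k] {𝒱 : VarClass k} {ops : CycleOps 𝒱}

/-- Operators on the cohomology of all varieties which preserve the degrees, are derivations,
commute with pull-backs, and kill the classes of algebraic cycles and the traces. -/
structure LieAct (V : WeilCohomology.{u, v} ops) where
  ι : Type w
  op : ι → ∀ X : 𝒱.Obj, Module.End V.K (V.H X)
  gr : ∀ (a : ι) {X : 𝒱.Obj} {i : ℕ} {x : V.H X}, x ∈ V.gr X i → op a X x ∈ V.gr X i
  mul : ∀ (a : ι) {X : 𝒱.Obj} (x y : V.H X), op a X (x * y) = op a X x * y + x * op a X y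
  map : ∀ (a : ι) {X Y : 𝒱.Obj} (f : X ⟶ Y) (y : V.H Y), op a X (V.map f y) = V.map f (op a Y y)
  tr : ∀ (a : ι) {X : 𝒱.Obj} (x : V.H X), V.tr X (op a X x) = 0
  cl : ∀ (a : ι) {X : 𝒱.Obj} {j : ℕ} {z : X.Cycles}, X.IsCyc j z → op a X (V.cl X z) = 0

namespace LieAct

variable {V : WeilCohomology.{u, v} ops} (𝔞 : LieAct.{u, v, w} V) {X Y Z : 𝒱.Obj}

lemma push (a : 𝔞.ι) (f : X ⟶ Y) (x : V.H X) :
    𝔞.op a Y (V.push f x) = V.push f (𝔞.op a X x) := by
  apply V.tr_ext
  intro b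
  have h1 : V.tr Y (𝔞.op a Y (V.push f x) * b) = -V.tr Y (V.push f x * 𝔞.op a Y b) := by
    rw [eq_neg_iff_add_eq_zero, ← map_add, ← 𝔞.mul, 𝔞.tr]
  have h2 : V.tr X (𝔞.op a X x * V.map f b) = -V.tr X (x * 𝔞.op a X (V.map f b)) := by
    rw [eq_neg_iff_add_eq_zero, ← map_add, ← 𝔞.mul, 𝔞.tr]
  rw [h1, V.tr_push, V.tr_push, h2, 𝔞.map]

/-- **The classes killed by the operators.** -/
def pred : ClassPred V where
  P X j c := c ∈ V.gr X (2 * j) ∧ ∀ a, 𝔞.op a X c = 0
  gr h := h.1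
  zero := ⟨Submodule.zero_mem _, fun a => map_zero _⟩
  add ha hb := ⟨Submodule.add_mem _ ha.1 hb.1, fun a => by rw [map_add, ha.2, hb.2, add_zero]⟩
  smul r _ h := ⟨Submodule.smul_mem _ _ h.1, fun a => by rw [map_smul, h.2, smul_zero]⟩
  cl hz := ⟨V.cl_mem hz, fun a => 𝔞.cl a hz⟩
  mul ha hb := ⟨by rw [mul_add]; exact V.mul_mem ha.1 hb.1, fun a => by
    rw [𝔞.mul, ha.2, hb.2, zero_mul, mul_zero, add_zero]⟩
  map f _ _ h := ⟨V.map_mem f h.1, fun a => by rw [𝔞.map, h.2, map_zero]⟩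
  push {X Y} f {j l} hl {a} h := ⟨by
    have h5 := V.push_mem f h.1
    have h6 : ((2 * j : ℕ) : ℤ) + 2 * ((Y.dim : ℤ) - X.dim) = ((2 * l : ℕ) : ℤ) := by omega
    rw [h6, grZ_natCast] at h5
    exact h5, fun a => by rw [𝔞.push, h.2, map_zero]⟩

lemma op_ten (a : 𝔞.ι) : ∀ {m : ℕ} (x : Fin (m + 1) → V.H X),
    𝔞.op a (pw X m) (ten V X m x) =
      ∑ i, ten V X m (Function.update x i (𝔞.op a X (x i)))
  | 0, x => by
    rw [Fin.sum_univ_one, ten_zero, ten_zero, Function.update_self]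
    rfl
  | m + 1, x => by
    have h2 : 𝔞.op a (pw X (m + 1)) (ten V X (m + 1) x) =
        V.map (fst (pw X m) X) (𝔞.op a (pw X m) (ten V X m (Fin.init x))) *
          V.map (snd (pw X m) X) (x (Fin.last (m + 1))) +
        V.map (fst (pw X m) X) (ten V X m (Fin.init x)) *
          V.map (snd (pw X m) X) (𝔞.op a X (x (Fin.last (m + 1)))) := by
      rw [← 𝔞.map, ← 𝔞.map]
      exact 𝔞.mul a (X := (pw X m).prod X) _ _
    rw [h2, op_ten a, map_sum, Finset.sum_mul]
    refine Eq.trans ?_ (Fin.sum_univ_castSucc (n := m + 1) _).symm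
    refine congrArg₂ (· + ·) ?_ ?_
    · refine Finset.sum_congr rfl fun i _ => ?_
      rw [ten_succ, init_upd_cast, Function.update_of_ne (Fin.castSucc_lt_last i).ne']
      rfl
    · rw [ten_succ, init_upd_last, Function.update_self]
      rfl

lemma op_eq (a : 𝔞.ι) (m : ℕ) : 𝔞.op a (pw X m) = derOp (𝔞.op a X) m :=
  IsDer.eq (A := 𝔞.op a X) fun x => 𝔞.op_ten a x

lemma proj_op (a : 𝔞.ι) (i : ℕ) (x : V.H X) :
    𝔞.op a X (proj (V.isInternal X) i x) = proj (V.isInternal X) i (𝔞.op a X x) := by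
  refine gr_induction (V.isInternal X) (p := fun x =>
    𝔞.op a X (proj (V.isInternal X) i x) = proj (V.isInternal X) i (𝔞.op a X x)) ?_ ?_ x
  · intro j c hc
    by_cases hij : j = i
    · subst hij
      rw [proj_same _ hc, proj_same _ (𝔞.gr a hc)]
    · rw [proj_ne _ hc hij, proj_ne _ (𝔞.gr a hc) hij, map_zero]
  · intro x y hx hy
    rw [map_add, map_add, map_add, map_add, hx, hy]

lemma proj_odd {i : ℕ} (hi : i % 2 = 1) {x : V.H X} (hx : x ∈ PH V X 0) :
    proj (V.isInternal X) i x = 0 := by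
  refine PH.ind (p := fun x => proj (V.isInternal X) i x = 0) ?_ ?_ ?_ hx
  · intro j hj x hx
    exact proj_ne _ hx (by omega)
  · exact map_zero _
  · intro x y hx hy; rw [map_add, hx, hy, add_zero]

lemma mem_iff {c : V.H X} : c ∈ 𝔞.pred.sys.C X ↔ c ∈ PH V X 0 ∧ ∀ a, 𝔞.op a X c = 0 := by
  constructor
  · intro hc
    refine ⟨𝔞.pred.sys.even hc, fun a => ?_⟩
    refine ClassPred.sp_ind (Q := 𝔞.pred) (q := fun c => 𝔞.op a X c = 0) ?_ ?_ ?_ hc
    · intro j x hx; exact hx.2 a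
    · exact map_zero _
    · intro x y hx hy; rw [map_add, hx, hy, add_zero]
  · rintro ⟨h1, h2⟩
    have h4 := congrArg (fun f : Module.End V.K (V.H X) => f c)
      (sum_proj (V.isInternal X) (N := 2 * X.dim + 1) fun i hi => V.gr_eq_bot X i (by omega))
    simp only [LinearMap.sum_apply, Module.End.one_apply] at h4
    rw [← h4]
    refine Submodule.sum_mem _ fun i _ => ?_
    rcases Nat.mod_two_eq_zero_or_one i with hi | hi
    · obtain ⟨j, rfl⟩ : ∃ j, i = 2 * j := ⟨i / 2, by omega⟩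
      exact ClassPred.sp_of (Q := 𝔞.pred) (j := j) ⟨proj_mem _ _ _, fun a => by
        rw [𝔞.proj_op, h2, map_zero]⟩
    · rw [proj_odd hi h1]
      exact Submodule.zero_mem _

section coord

variable {B : Type} [Fintype B] [DecidableEq B] {w : Module.Basis B V.K (V.H X)} {d : B → ℕ}

lemma ten_PH {m : ℕ} (hd : ∀ b, w b ∈ V.gr X (d b)) (I : Fin (m + 1) → B) :
    ten V X m (fun k => w (I k)) ∈ PH V (pw X m) (∑ k, d (I k)) := by
  induction m with
  | zero =>
    rw [ten_zero, Fin.sum_univ_one]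
    exact PH.of (hd (I 0))
  | succ m ih =>
    rw [Fin.sum_univ_castSucc]
    exact PH.mul (PH.map (fst (pw X m) X) (ih fun k => I k.castSucc))
      (PH.map (snd (pw X m) X) (PH.of (hd (I (Fin.last (m + 1))))))

lemma PP_even_iff [CharZero V.K] {m : ℕ} (hd : ∀ b, w b ∈ V.gr X (d b))
    {F : (Fin (m + 1) → B) → V.K} : PP w (Det.prj X m) F ∈ PH V (pw X m) 0 ↔
      ∀ I, F I ≠ 0 → (∑ k, d (I k)) % 2 = 0 := by
  constructor
  · intro h I hI
    have h1 := PH.par h
    rw [pow_zero, one_smul] at h1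
    have h2 : par (V.isInternal (pw X m)) (PP w (Det.prj X m) F) =
        PP w (Det.prj X m) (fun I => (-1) ^ (∑ k, d (I k)) * F I) := by
      rw [PP_prj, PP_prj, map_sum]
      refine Finset.sum_congr rfl fun J _ => ?_
      rw [map_smul, PH.par (ten_PH hd J), smul_smul, mul_comm]
    rw [h2] at h1
    have h3 := congrFun (PP_inj w h1) I
    by_contra hne
    have h4 : (∑ k, d (I k)) % 2 = 1 := by omega
    simp only [Odd.neg_one_pow (Nat.odd_iff.2 h4)] at h3
    have h5 : (2 : V.K) * F I = 0 := by linear_combination -h3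
    exact hI ((mul_eq_zero.1 h5).resolve_left two_ne_zero)
  · intro h
    rw [PP_prj]
    refine Submodule.sum_mem _ fun I _ => ?_
    by_cases hI : F I = 0
    · rw [hI, zero_smul]; exact Submodule.zero_mem _
    · refine Submodule.smul_mem _ _ ?_
      exact PH.congr (h I hI) (ten_PH hd I)

/-- the matrices of the operators -/
def mats (w : Module.Basis B V.K (V.H X)) : Set (Matrix B B V.K) :=
  {M | ∃ a, mt w (𝔞.op a X) = M}

/-- **The tensors of the classes killed by the operators.** -/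
theorem Cs_pred [CharZero V.K] (hd : ∀ b, w b ∈ V.gr X (d b)) (n : ℕ) :
    Cs 𝔞.pred.sys w n = RT (𝔞.mats w) d n := by
  ext F
  cases n with
  | zero =>
    constructor
    · intro _
      refine ⟨fun M _ => ?_, fun I _ => by simp⟩
      funext I
      simp [dM_mulVec]
    · intro _; exact mem_Cs_zero _
  | succ m =>
    rw [mem_Cs_succ, mem_iff, PP_even_iff hd]
    constructor
    · rintro ⟨h1, h2⟩
      refine ⟨?_, h1⟩
      rintro _ ⟨a, rfl⟩
      have h3 := h2 a
      rw [𝔞.op_eq, derOp_PP] at h3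
      exact PP_inj w (h3.trans (PP_zero _).symm)
    · rintro ⟨h1, h2⟩
      refine ⟨h2, fun a => ?_⟩
      rw [𝔞.op_eq, derOp_PP, h1 _ ⟨a, rfl⟩, PP_zero]

end coord

end LieAct

end Pool.Agent.Q67.TG
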