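import Pool.Agent.Q67.TL.MasterT2

/-!
# Systems of classes, Hodge classes and classes killed by a Lie algebra
-/

set_option autoImplicit false
set_option linter.unusedSectionVars false

open CategoryTheory AlgebraicGeometry TensorProduct Filter Topology

open scoped ENNReal

universe u v w

namespace Pool.Agent.Q67.TG

open Pool.Agent.H914 Pool.Agent.H914.VarClass Pool.Agent.H914.VarClass.Obj
  Pool.Agent.H914.WeilCohomology
open Pool.Agent.Y133.Half hiding prj extOp_xp
open Pool.Agent.Q67.Det Pool.Agent.Q67.TK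
open Pool.Agent.Y121.AH
open scoped Matrix

variable {k : Type u} [Field k] {𝒱 : VarClass k} {ops : CycleOps 𝒱}

section tensors

variable {K L B : Type} [Field K] [Field L] [Algebra K L] [Fintype B] [DecidableEq B]

/-- A tensor with coefficients in `L` all of whose components lie in `V` is a combination of
elements of `V`. -/
lemma mem_mpS_of {S : Type} [Finite S] {V : Submodule K (S → K)} {F : S → L}
    (h : ∀ l : L →ₗ[K] K, (fun I => l (F I)) ∈ V) : F ∈ mpS L V := by
  classical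
  have := Fintype.ofFinite S
  set b := Module.Basis.ofVectorSpace K L with hb
  set s : Finset _ := Finset.univ.biUnion fun I : S => (b.repr (F I)).support with hs
  have h1 : F = ∑ i ∈ s, b i • mp L (fun I => b.coord i (F I)) := by
    funext I
    rw [Finset.sum_apply]
    have h2 : F I = ∑ i ∈ (b.repr (F I)).support, (b.repr (F I)) i • b i := by
      conv_lhs => rw [← b.linearCombination_repr (F I)]
      rfl
    conv_lhs => rw [h2]
    refine (Finset.sum_subset (Finset.subset_biUnion_of_mem (fun I : S =>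
      (b.repr (F I)).support) (Finset.mem_univ I)) ?_).trans ?_
    · intro i _ hi
      rw [Finsupp.notMem_support_iff.1 hi, zero_smul]
    · refine Finset.sum_congr rfl fun i _ => ?_
      rw [Pi.smul_apply, mp, smul_eq_mul, Algebra.smul_def, mul_comm]
      rfl
  rw [h1]
  exact Submodule.sum_mem _ fun i _ => Submodule.smul_mem _ _
    (Submodule.subset_span ⟨_, h (b.coord i), rfl⟩)

lemma mp_dM (n : ℕ) (A : Matrix B B K) (F : (Fin n → B) → K) :
    mp L ((dM n A).mulVec F) = (dM n (A.map (algebraMap K L))).mulVec (mp L F) := by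
  funext I
  simp only [mp, dM_mulVec, map_sum, map_mul, Matrix.map_apply]

lemma fn_dM (l : L →ₗ[K] K) (n : ℕ) (A : Matrix B B K) (F : (Fin n → B) → L) :
    (dM n A).mulVec (fun I => l (F I)) =
      fun I => l ((dM n (A.map (algebraMap K L))).mulVec F I) := by
  funext I
  simp only [dM_mulVec, map_sum, Matrix.map_apply]
  refine Finset.sum_congr rfl fun k _ => Finset.sum_congr rfl fun c _ => ?_
  rw [← Algebra.smul_def, map_smul, smul_eq_mul]

end tensors

section gen

variable {W : WeilCohomology.{u, 0} ops} {L : Type} [Field L] [Algebra W.K L] {X Y Z : 𝒱.Obj}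

lemma mt_bcE {B : Type} [Fintype B] [DecidableEq B] (v : Module.Basis B W.K (W.H X))
    (A : Module.End W.K (W.H X)) :
    mt (vL L v) (bcE L A) = (mt v A).map (algebraMap W.K L) := by
  refine mt_unique (W := baseW W L) (vL L v) fun b => ?_
  rw [vL_apply, bcE_em, mt_spec v A b, em_sumL]
  refine Finset.sum_congr rfl fun a _ => ?_
  rw [em_smul, vL_apply]
  rfl

lemma derOp_em (A : Module.End W.K (W.H X)) (m : ℕ) (c : W.H (pw X m)) :
    derOp (bcE L A) m (em W L c) = em W L (derOp A m c) := by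
  obtain ⟨n, v, d, hd⟩ := exists_homog_basis W X
  obtain ⟨F, rfl⟩ := PP_surj v c
  rw [derOp_PP, em_PPL, em_PPL]
  refine (derOp_PP (W := baseW W L) (vL L v) (bcE L A) (mpL L F)).trans ?_
  congr 1
  rw [mt_bcE]
  exact (mp_dM (L := L) (m + 1) (mt v A) F).symm

end gen


section ops

variable {W : WeilCohomology.{u, 0} ops} {L : Type} [Field L] [Algebra W.K L] {X Y Z : 𝒱.Obj}

/-- An operator which kills the classes of the system with coefficients in `K`. -/
lemma killsW_bcE {Q : ClassPred W} {A : Module.End W.K (W.H X)} (hA : KillsW Q.sys X A) :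
    KillsW (bcPred L Q).sys X (bcE L A) := by
  intro m c hc
  rw [bcPred_sys, mem_base] at hc
  have h1 : Submodule.span (baseW W L).K (em W L '' (Q.sys.C (pw X m) : Set (W.H (pw X m)))) ≤
      LinearMap.ker (derOp (bcE L A) m) := by
    refine Submodule.span_le.2 ?_
    rintro _ ⟨x, hx, rfl⟩
    change derOp (bcE L A) m (em W L x) = 0
    rw [derOp_em, hA m x hx, em_zero]
  exact h1 hc

/-- An operator which kills the classes of the extended system on a power. -/
lemma kill_of_bcE {Q : ClassPred W} {A : Module.End W.K (W.H X)} {m : ℕ}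
    (hA : ∀ c ∈ (bcPred L Q).sys.C (pw X m), derOp (bcE L A) m c = 0) :
    ∀ c ∈ Q.sys.C (pw X m), derOp A m c = 0 := by
  intro c hc
  have h1 : em W L c ∈ (bcPred L Q).sys.C (pw X m) := by
    rw [bcPred_sys, mem_base]
    exact Submodule.subset_span ⟨c, hc, rfl⟩
  have h2 := hA _ h1
  rw [derOp_em] at h2
  exact em_injective h2

/-- The operators given by the extended system. -/
lemma op_bcE {Q : ClassPred W} {φ : Module.End W.K (W.H X)} (h : φ ∈ Q.sys.Op X X) :
    bcE L φ ∈ (bcPred L Q).sys.Op X X := by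
  rw [bcPred_sys]
  exact op_base h

/-- An operator which commutes with the operators of the system commutes with the operators of the
extended system. -/
lemma comm_bcE {Q : ClassPred W} {A : Module.End W.K (W.H X)}
    (hA : ∀ φ ∈ Q.sys.Op X X, A * φ = φ * A)
    {φ : Module.End (baseW W L).K ((baseW W L).H X)} (hφ : φ ∈ (bcPred L Q).sys.Op X X) :
    bcE L A * φ = φ * bcE L A := by
  obtain ⟨z, hz, rfl⟩ := Sys.mem_Op.1 hφ
  clear hφ
  rw [bcPred_sys, mem_base] at hz
  induction hz using Submodule.span_induction with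
  | mem x hx =>
    obtain ⟨c, hc, rfl⟩ := hx
    have h1 : (baseW W L).corr (em W L c) = bcE L (W.corr c) :=
      corrOp_base (L := L) (W.map (fst X X)) (W.push (snd X X)) c
    rw [h1]
    refine em_ext fun x => ?_
    have h2 := congrArg (fun f : Module.End W.K (W.H X) => f x)
      (hA (W.corr c) (Sys.mem_Op.2 ⟨c, hc, rfl⟩))
    change bcE L A (bcE L (W.corr c) (em W L x)) = bcE L (W.corr c) (bcE L A (em W L x))
    rw [bcE_em, bcE_em, bcE_em, bcE_em]
    exact congrArg (em W L) h2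
  | zero =>
    have h5 : (baseW W L).corr (0 : (baseW W L).H (X.prod X)) = 0 := corr_zero _
    rw [h5, mul_zero, zero_mul]
  | add x y _ _ hx hy =>
    have h5 : (baseW W L).corr (x + y) = (baseW W L).corr x + (baseW W L).corr y :=
      corr_add _ _ _
    rw [h5, mul_add, add_mul, hx, hy]
  | smul r x _ hx =>
    have h5 : (baseW W L).corr (r • x) = r • (baseW W L).corr x := corr_smul _ _ _
    rw [h5, mul_smul_comm, smul_mul_assoc, hx]

end ops

section main

variable {T : HodgeTheory ops} {L : Type} [Field L] [Algebra T.W.K L] [Algebra L ℂ]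
  {X Y Z : 𝒱.Obj} {Q : ClassPred T.W}

/-- The law for the index `N` of the classes in `R` over the classes in `Q`. -/
def LawOf (R : ClassPred (baseW T.W L)) (Q : ClassPred T.W) (X : 𝒱.Obj) (N : ℕ∞) : Prop :=
  1 ≤ N ∧
      HasIndex (fun n => dimBy (baseW T.W L) R.P (pw X n))
        (fun n => dimBy T.W Q.P (pw X n)) N ∧
      (N = 1 ↔ ∀ n j c, R.P (pw X n) j c → (bcPred L Q).P (pw X n) j c) ∧
      (N ≠ 1 → AtMostHalf (fun n => dimBy T.W Q.P (pw X n))
        (fun n => dimBy (baseW T.W L) R.P (pw X n))) ∧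
      (N ≠ ⊤ → GeneratedOver (baseW T.W L) (bcPred L Q).P R.P X N) ∧
      (N ≠ ⊤ ↔ ∀ A : Module.End (baseW T.W L).K ((baseW T.W L).H X),
        KillsW (bcPred L Q).sys X A → KillsW R.sys X A) ∧
      (N ≠ ⊤ ↔ (∀ A : Module.End (baseW T.W L).K ((baseW T.W L).H X),
          KillsW (bcPred L Q).sys X A → ∀ c ∈ R.sys.C (pw X 3), derOp A 3 c = 0) ∧
        (∀ A : Module.End (baseW T.W L).K ((baseW T.W L).H X), KillsW (bcPred L Q).sys X A →
          A ∈ R.sys.Op X X → (∀ φ ∈ R.sys.Op X X, A * φ = φ * A) →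
          KillsW R.sys X A))

lemma bc_mono (hQR : ∀ {Z : 𝒱.Obj} {j : ℕ} {c : T.W.H Z}, Q.P Z j c → (hodgePred T).P Z j c)
    {Z : 𝒱.Obj} {j : ℕ} {c : (baseW T.W L).H Z} (hc : (bcPred L Q).P Z j c) :
    (bcPred L (hodgePred T)).P Z j c :=
  bcPred_le (R := bcPred L (hodgePred T)) (fun h => bcPred_of (hQR h)) hc

/-- **The finiteness criteria for the index of the Hodge classes.** -/
theorem masterH (L : Type) [Field L] [Algebra T.W.K L] [Algebra L ℂ]
    (hQR : ∀ {Z : 𝒱.Obj} {j : ℕ} {c : T.W.H Z}, Q.P Z j c → (hodgePred T).P Z j c)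
    (P : PolData T Q.sys X) [Nontrivial (T.W.H X)] :
    ∃ N : ℕ∞, LawOf (bcPred L (hodgePred T)) Q X N := by
  have := charZero_K T
  have hL0 := charZero_L T L
  have hnt : Nontrivial ((baseW T.W L).H X) := Pool.Agent.Y129.nontrivial_base L
  have hnd : ∀ n, (bcPred L Q).sys.Nondeg (pw X n) := by
    intro n
    rw [bcPred_sys]
    exact (P.nondeg_pw n).base L
  obtain ⟨N, M, h1, -, hN, -, -, hN1, -, hhalf, -, hgen, -⟩ :=
    (bcPred L Q).tower (bcPred L (hodgePred T)) (bc_mono hQR) X hnd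
  have hd : (fun n => dimBy (baseW T.W L) (bcPred L Q).P (pw X n)) =
      fun n => dimBy T.W Q.P (pw X n) := funext fun n => bcPred_dim _
  have hd' : (fun n => dimBy (baseW T.W L) (bcPred L (hodgePred T)).P (pw X n)) =
      fun n => dimBy T.W (hodgePred T).P (pw X n) := funext fun n => bcPred_dim _
  rw [hd] at hN hhalf
  have hA1 : N ≠ ⊤ → ∀ A : Module.End (baseW T.W L).K ((baseW T.W L).H X),
      KillsW (bcPred L Q).sys X A → KillsW (bcPred L (hodgePred T)).sys X A := by
    intro h A hA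
    have h2 : NDat (baseW T.W L) (bcPred L Q).sys X := by
      rw [bcPred_sys]
      exact P.ndat.base
    exact kill_of_generated' h2 (hgen h) hA
  have hA2 : (∀ A : Module.End (baseW T.W L).K ((baseW T.W L).H X),
          KillsW (bcPred L Q).sys X A → ∀ c ∈ (bcPred L (hodgePred T)).sys.C (pw X 3),
            derOp A 3 c = 0) ∧
        (∀ A : Module.End (baseW T.W L).K ((baseW T.W L).H X), KillsW (bcPred L Q).sys X A →
          A ∈ (bcPred L (hodgePred T)).sys.Op X X →
          (∀ φ ∈ (bcPred L (hodgePred T)).sys.Op X X, A * φ = φ * A) →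
          KillsW (bcPred L (hodgePred T)).sys X A) → N ≠ ⊤ := by
    rintro ⟨h4, hZ⟩
    have hinf : ∀ A : Module.End T.W.K (T.W.H X),
        (∀ m, ∀ c ∈ Q.sys.C (pw X m), derOp A m c = 0) →
        ∀ m, ∀ c ∈ (hodgeSys T).C (pw X m), derOp A m c = 0 := by
      intro A hA
      refine P.kill_of_four (fun A hA => ?_) (fun A hA h1 h2 => ?_) hA
      · exact kill_of_bcE (L := L) (Q := hodgePred T) (h4 _ (killsW_bcE hA))
      · intro m
        exact kill_of_bcE (L := L) (Q := hodgePred T)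
          (hZ _ (killsW_bcE hA) (op_bcE h1) (fun φ hφ => comm_bcE h2 hφ) m)
    obtain ⟨n, v, d, hd⟩ := exists_homog_basis T.W X
    obtain ⟨c, hc, hb⟩ := P.bound_aux hd hinf
    rw [hd'] at hN
    exact ne_top_of_bound hN (fun n => Q.sys.finrank_pos_pw n) hc hb
  refine ⟨N, h1, hN, hN1, hhalf, hgen, ⟨hA1, fun h => hA2 ⟨fun A hA => h A hA 3,
    fun A hA _ _ => h A hA⟩⟩, ⟨fun h => ⟨fun A hA => hA1 h A hA 3,
    fun A hA _ _ => hA1 h A hA⟩, hA2⟩⟩

variable {𝔞 : LieAct.{u, 0, w} (baseW T.W L)}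

/-- **Hodge classes are killed by the operators**, if the operators which kill the classes of the
system kill the Hodge classes. -/
theorem hodge_le_killed
    (hQ : ∀ {Z : 𝒱.Obj} {j : ℕ} {c : T.W.H Z}, Q.P Z j c → ∀ a, 𝔞.op a Z (em T.W L c) = 0)
    (h : ∀ A : Module.End (baseW T.W L).K ((baseW T.W L).H X),
      KillsW (bcPred L Q).sys X A → KillsW (bcPred L (hodgePred T)).sys X A)
    {m j : ℕ} {c : (baseW T.W L).H (pw X m)} (hc : (bcPred L (hodgePred T)).P (pw X m) j c) :
    𝔞.pred.P (pw X m) j c := by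
  refine ⟨hc.2, fun a => ?_⟩
  have hle : ∀ {Z : 𝒱.Obj} {j : ℕ} {c : (baseW T.W L).H Z}, (bcPred L Q).P Z j c →
      𝔞.pred.P Z j c := fun hc =>
    bcPred_le (R := 𝔞.pred) (fun h => ⟨em_gr (Q.gr h), hQ h⟩) hc
  have h1 : KillsW (bcPred L Q).sys X (𝔞.op a X) := by
    intro m c hc
    rw [← 𝔞.op_eq]
    exact ((𝔞.mem_iff).1 (ClassPred.sys_le hle _ hc)).2 a
  have h2 := h _ h1 m c (ClassPred.sp_of (Q := bcPred L (hodgePred T)) hc)
  rw [← 𝔞.op_eq] at h2
  exact h2

/-- **Killed classes are Hodge classes**, if the operators which kill the classes of the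
system kill the killed classes. -/
theorem killed_le_hodge
    (hQR : ∀ {Z : 𝒱.Obj} {j : ℕ} {c : T.W.H Z}, Q.P Z j c → (hodgePred T).P Z j c)
    (h : ∀ A : Module.End (baseW T.W L).K ((baseW T.W L).H X),
      KillsW (bcPred L Q).sys X A → KillsW 𝔞.pred.sys X A)
    {m j : ℕ} {c : (baseW T.W L).H (pw X m)} (hc : 𝔞.pred.P (pw X m) j c) :
    (bcPred L (hodgePred T)).P (pw X m) j c := by
  have := charZero_K T
  have := tower_inst T L
  refine ⟨?_, hc.1⟩
  obtain ⟨n, v, d, hd⟩ := exists_homog_basis T.W X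
  obtain ⟨F, rfl⟩ := PP_surj (vL L v) c
  have h1 : (show (Fin (m + 1) → Fin n) → (baseW T.W L).K from F) ∈
      Cs 𝔞.pred.sys (vL L v) (m + 1) :=
    mem_Cs_succ.2 (ClassPred.sp_of (Q := 𝔞.pred) hc)
  have h2 : (show (Fin (m + 1) → Fin n) → L from F) ∈
      CsL L (hodgeSys T) v (m + 1) := by
    rw [Cs_base]
    refine mem_mpS_of fun l => ?_
    rw [hodge_Cs]
    refine mem_Ker_of fun A hA => ?_
    refine (fn_dM l (m + 1) A (show (Fin (m + 1) → Fin n) → L from F)).trans ?_
    have h3 : A.map (algebraMap T.W.K L) ∈ Ann fun l => mpS L (Cs Q.sys v l) := by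
      intro l G hG
      have h4 : mpS L (Cs Q.sys v l) ≤ LinearMap.ker
          (Matrix.mulVecLin (dM l (A.map (algebraMap T.W.K L)))) := by
        refine Submodule.span_le.2 ?_
        rintro _ ⟨G, hG, rfl⟩
        change (dM l (A.map (algebraMap T.W.K L))).mulVec (mp L G) = 0
        rw [← mp_dM]
        have h5 : (dM l A).mulVec G = 0 := by
          refine hA l G ?_
          rw [← hodge_Cs]
          exact fun Z f => ClassPred.sys_le hQR _ (hG Z f)
        rw [h5]
        funext I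
        exact map_zero _
      exact h4 hG
    have h4 := (mem_Ann_Cs (W := baseW T.W L) (v := vL L v)).2 (h _ (killsW_of_ann h3)) (m + 1) _ h1
    have hmt : ∀ M : Matrix (Fin n) (Fin n) L,
      mt (vL L v) (Matrix.toLin (vL L v) (vL L v) M) = M := fun M =>
      LinearMap.toMatrix_toLin (vL L v) (vL L v) M
    rw [hmt] at h4
    funext I
    have h6 := congrFun h4 I
    refine (congrArg l h6).trans (map_zero l)
  exact mem_Cs_succ.1 (mem_CsL.1 h2)

/-- the projection of `X^4` to `X^2` -/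
noncomputable def prFour (X : 𝒱.Obj) : pw X 3 ⟶ X.prod X := fst (pw X 2) X ≫ fst (pw X 1) X

/-- a section of the projection -/
noncomputable def seFour (X : 𝒱.Obj) : X.prod X ⟶ pw X 3 :=
  Obj.lift (Obj.lift (𝟙 (X.prod X)) (snd X X)) (snd X X)

lemma se_pr (X : 𝒱.Obj) : seFour X ≫ prFour X = 𝟙 (X.prod X) := by
  have h1 : seFour X ≫ fst (pw X 2) X = Obj.lift (𝟙 (X.prod X)) (snd X X) := Obj.lift_fst _ _
  have h2 : Obj.lift (𝟙 (X.prod X)) (snd X X) ≫ fst (pw X 1) X = 𝟙 (X.prod X) :=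
    Obj.lift_fst _ _
  have h3 : seFour X ≫ prFour X = (seFour X ≫ fst (pw X 2) X) ≫ fst (pw X 1) X :=
    (Category.assoc _ _ _).symm
  exact h3.trans ((congrArg (fun f : X.prod X ⟶ pw X 2 => f ≫ fst (pw X 1) X) h1).trans h2)

lemma down_of_four {R : ClassPred (baseW T.W L)}
    (h3 : ∀ j c, R.P (pw X 3) j c → (bcPred L Q).P (pw X 3) j c) {j : ℕ}
    {c : (baseW T.W L).H (X.prod X)} (hc : R.P (X.prod X) j c) :
    (bcPred L Q).P (X.prod X) j c := by
  have h1 := (bcPred L Q).map (seFour X) (h3 j _ (R.map (prFour X) hc))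
  rwa [← (baseW T.W L).map_comp, se_pr, (baseW T.W L).map_id] at h1

/-- **The fourth power suffices.** -/
theorem four_suffices {R : ClassPred (baseW T.W L)} {N : ℕ∞} (P : PolData T Q.sys X)
    (hle : ∀ {Z : 𝒱.Obj} {j : ℕ} {c : (baseW T.W L).H Z}, (bcPred L Q).P Z j c → R.P Z j c)
    (hlaw : LawOf R Q X N)
    (h3 : ∀ j c, R.P (pw X 3) j c → (bcPred L Q).P (pw X 3) j c)
    (hsk : ∀ A ∈ (bcPred L Q).sys.Op X X, (∀ φ ∈ (bcPred L Q).sys.Op X X, A * φ = φ * A) →
      (∀ x y, (baseW T.W L).tr X (A x * y) = -(baseW T.W L).tr X (x * A y)) → A = 0) :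
    N ≠ ⊤ := by
  have := charZero_K T
  have := charZero_L T L
  refine hlaw.2.2.2.2.2.2.2 ⟨fun A hA c hc => ?_, fun A hA h1 h2 m c hc => ?_⟩
  · refine hA 3 c ?_
    refine ClassPred.sp_ind (Q := R) (q := fun c => c ∈ (bcPred L Q).sys.C (pw X 3)) ?_ ?_ ?_ hc
    · intro j x hx; exact ClassPred.sp_of (Q := bcPred L Q) (h3 j x hx)
    · exact Submodule.zero_mem _
    · intro a b ha hb; exact Submodule.add_mem _ ha hb
  · have e1 : A ∈ (bcPred L Q).sys.Op X X := by
      obtain ⟨z, hz, rfl⟩ := Sys.mem_Op.1 h1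
      refine Sys.mem_Op.2 ⟨z, ?_, rfl⟩
      refine ClassPred.sp_ind (Q := R) (q := fun c => c ∈ (bcPred L Q).sys.C (X.prod X))
        ?_ ?_ ?_ hz
      · intro j x hx; exact ClassPred.sp_of (Q := bcPred L Q) (down_of_four h3 hx)
      · exact Submodule.zero_mem _
      · intro a b ha hb; exact Submodule.add_mem _ ha hb
    have e2 : ∀ φ ∈ (bcPred L Q).sys.Op X X, A * φ = φ * A := by
      intro φ hφ
      obtain ⟨z, hz, rfl⟩ := Sys.mem_Op.1 hφ
      exact h2 _ (Sys.mem_Op.2 ⟨z, ClassPred.sys_le hle _ hz, rfl⟩)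
    have e3 : A = 0 := by
      refine hsk A e1 e2 fun x y => ?_
      have h10 := hA
      rw [bcPred_sys] at h10
      exact NDat.tr_skew (P.ndat.base (L := L)) h10 x y
    have h10 : (0 : Module.End (baseW T.W L).K ((baseW T.W L).H (pw X m))) =
        derOp (W := baseW T.W L) (0 : Module.End (baseW T.W L).K ((baseW T.W L).H X)) m := by
      refine IsDer.eq (W := baseW T.W L) ?_
      intro x
      rw [LinearMap.zero_apply]
      refine (Finset.sum_eq_zero fun i _ => ?_).symm
      exact ten_zero_of (i := i) (Function.update_self i _ x)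
    rw [e3, ← h10, LinearMap.zero_apply]

/-- **The Mumford-Tate law.** -/
theorem mmt (P : PolData T Q.sys X) [Nontrivial (T.W.H X)] (𝔞 : LieAct.{u, 0, w} (baseW T.W L))
    (hQR : ∀ {Z : 𝒱.Obj} {j : ℕ} {c : T.W.H Z}, Q.P Z j c → (hodgePred T).P Z j c)
    (hQ : ∀ {Z : 𝒱.Obj} {j : ℕ} {c : T.W.H Z}, Q.P Z j c → ∀ a, 𝔞.op a Z (em T.W L c) = 0)
    (hss : 𝔞.Semi (X.prod X)) :
    ∃ NH NT : ℕ∞, LawOf (bcPred L (hodgePred T)) Q X NH ∧ LawOf 𝔞.pred Q X NT ∧
      (NH ≠ ⊤ → (∀ m j c, (bcPred L (hodgePred T)).P (pw X m) j c → 𝔞.pred.P (pw X m) j c) ∧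
        NH ≤ NT) ∧
      (NT ≠ ⊤ → (∀ m j c, 𝔞.pred.P (pw X m) j c → (bcPred L (hodgePred T)).P (pw X m) j c) ∧
        NT ≤ NH) := by
  obtain ⟨NH, hH⟩ := masterH L hQR P
  obtain ⟨NT, hT⟩ := masterL P 𝔞 hQ hss
  have hT' : LawOf 𝔞.pred Q X NT := hT
  have hmono : ∀ {R R' : ClassPred (baseW T.W L)} {M N : ℕ∞},
      LawOf R Q X M → LawOf R' Q X N →
      (∀ m j c, R.P (pw X m) j c → R'.P (pw X m) j c) → M ≤ N := by
    intro R R' M N hM hN hle
    have h1 := le_of_tendsto_of_tendsto hM.2.1 hN.2.1 (Eventually.of_forall fun n => ?_)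
    · exact_mod_cast h1
    · have h2 : dimBy (baseW T.W L) R.P (pw X n) ≤ dimBy (baseW T.W L) R'.P (pw X n) := by
        rw [ClassPred.dimBy_eq, ClassPred.dimBy_eq]
        refine Submodule.finrank_mono (Submodule.span_le.2 ?_)
        rintro c ⟨j, hc⟩
        exact Submodule.subset_span ⟨j, hle n j c hc⟩
      exact ENNReal.div_le_div_right (by exact_mod_cast h2) _
  refine ⟨NH, NT, hH, hT', fun h => ?_, fun h => ?_⟩
  · have h1 : ∀ m j c, (bcPred L (hodgePred T)).P (pw X m) j c → 𝔞.pred.P (pw X m) j c :=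
      fun m j c hc => hodge_le_killed hQ (hH.2.2.2.2.2.1.1 h) hc
    exact ⟨h1, hmono hH hT' h1⟩
  · have h1 : ∀ m j c, 𝔞.pred.P (pw X m) j c → (bcPred L (hodgePred T)).P (pw X m) j c :=
      fun m j c hc => killed_le_hodge hQR (hT'.2.2.2.2.2.1.1 h) hc
    exact ⟨h1, hmono hT' hH h1⟩

end main

end Pool.Agent.Q67.TG
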