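import Pool.Agent.Q67.TL.Dat

/-!
# The index of the classes killed by a Lie algebra
-/

set_option autoImplicit false
set_option linter.unusedSectionVars false

open CategoryTheory AlgebraicGeometry TensorProduct

universe u v w

namespace Pool.Agent.Q67.TG

open Pool.Agent.H914 Pool.Agent.H914.VarClass Pool.Agent.H914.VarClass.Obj
  Pool.Agent.H914.WeilCohomology
open Pool.Agent.Y133.Half hiding prj extOp_xp
open Pool.Agent.Q67.Det Pool.Agent.Q67.TK
open Pool.Agent.Y121.AH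
open scoped Matrix

variable {k : Type u} [Field k] {𝒱 : VarClass k} {ops : CycleOps 𝒱}

/-- Transport of semisimplicity. -/
lemma semi_transport {K M N ι : Type*} [Field K] [AddCommGroup M] [Module K M] [AddCommGroup N]
    [Module K N] (e : M ≃ₗ[K] N) {f : ι → M → M} {g : ι → N → N}
    (h : ∀ a x, g a (e x) = e (f a x))
    (hN : ∀ U : Submodule K N, (∀ a, ∀ x ∈ U, g a x ∈ U) →
      ∃ U', IsCompl U U' ∧ ∀ a, ∀ x ∈ U', g a x ∈ U')
    (U : Submodule K M) (hU : ∀ a, ∀ x ∈ U, f a x ∈ U) :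
    ∃ U', IsCompl U U' ∧ ∀ a, ∀ x ∈ U', f a x ∈ U' := by
  obtain ⟨U', hc, hs⟩ := hN (U.map e.toLinearMap) (by
    rintro a _ ⟨x, hx, rfl⟩
    exact ⟨_, hU a x hx, (h a x).symm⟩)
  refine ⟨Submodule.comap e.toLinearMap U', ?_, ?_⟩
  · have h1 : Submodule.comap e.toLinearMap (U.map e.toLinearMap) = U :=
      Submodule.comap_map_eq_of_injective e.injective U
    rw [← h1]
    constructor
    · rw [Submodule.disjoint_def]
      intro x hx hx'
      exact e.map_eq_zero_iff.1 ((Submodule.disjoint_def.1 hc.disjoint) _ hx hx')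
    · rw [codisjoint_iff, eq_top_iff]
      rintro x -
      have h2 : e x ∈ U.map e.toLinearMap ⊔ U' := by
        rw [hc.sup_eq_top]; trivial
      obtain ⟨y, hy, z, hz, hyz⟩ := Submodule.mem_sup.1 h2
      refine Submodule.mem_sup.2 ⟨e.symm y, ?_, e.symm z, ?_, ?_⟩
      · rw [Submodule.mem_comap]
        change e (e.symm y) ∈ _
        rw [LinearEquiv.apply_symm_apply]
        exact hy
      · rw [Submodule.mem_comap]
        change e (e.symm z) ∈ _
        rw [LinearEquiv.apply_symm_apply]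
        exact hz
      · rw [← map_add, hyz, LinearEquiv.symm_apply_apply]
  · intro a x hx
    have h1 := hs a _ hx
    have h2 : g a (e.toLinearMap x) = e.toLinearMap (f a x) := h a x
    rw [h2] at h1
    exact h1

section gen

variable {V : WeilCohomology.{u, v} ops} {X Y Z : 𝒱.Obj}

/-- The operator kills the classes of the system on all powers. -/
def KillsW (S : Sys V) (X : 𝒱.Obj) (A : Module.End V.K (V.H X)) : Prop :=
  ∀ m, ∀ c ∈ S.C (pw X m), derOp A m c = 0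

/-- Every subspace of the cohomology of `Z` stable under the operators has a stable complement. -/
def LieAct.Semi (𝔞 : LieAct.{u, v, w} V) (Z : 𝒱.Obj) : Prop :=
  ∀ U : Submodule V.K (V.H Z), (∀ a, ∀ x ∈ U, 𝔞.op a Z x ∈ U) →
    ∃ U', IsCompl U U' ∧ ∀ a, ∀ x ∈ U', 𝔞.op a Z x ∈ U'

lemma LieAct.semi_coord {𝔞 : LieAct.{u, v, w} V} {B : Type} [Fintype B] [DecidableEq B]
    {w : Module.Basis B V.K (V.H X)} (h : 𝔞.Semi (X.prod X))
    (U : Submodule V.K ((Fin 2 → B) → V.K))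
    (hU : ∀ M ∈ 𝔞.mats w, ∀ F ∈ U, (dM 2 M).mulVec F ∈ U) :
    ∃ U', IsCompl U U' ∧ ∀ M ∈ 𝔞.mats w, ∀ F ∈ U', (dM 2 M).mulVec F ∈ U' := by
  have hop : ∀ (a : 𝔞.ι) (F : (Fin 2 → B) → V.K), 𝔞.op a (X.prod X) (PPe w 1 F) =
      PPe w 1 ((dM 2 (mt w (𝔞.op a X))).mulVec F) := by
    intro a F
    have h1 : 𝔞.op a (pw X 1) (PP w (Det.prj X 1) F) =
        PP w (Det.prj X 1) ((dM 2 (mt w (𝔞.op a X))).mulVec F) := by
      rw [𝔞.op_eq, derOp_PP]
    exact h1
  obtain ⟨U', hc, hs⟩ := semi_transport (N := V.H (X.prod X)) (PPe w 1)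
    (f := fun (a : 𝔞.ι) F => (dM 2 (mt w (𝔞.op a X))).mulVec F)
    (g := fun a x => 𝔞.op a (X.prod X) x) hop h U fun a F hF => hU _ ⟨a, rfl⟩ F hF
  refine ⟨U', hc, ?_⟩
  rintro _ ⟨a, rfl⟩ F hF
  exact hs a F hF

lemma NDat.evM {S : Sys V} (P : NDat V S X) [CharZero V.K] {n : ℕ}
    {v : Module.Basis (Fin n) V.K (V.H X)} {d : Fin n → ℕ} (hd : ∀ b, v b ∈ V.gr X (d b))
    {A : Module.End V.K (V.H X)} (hA : KillsW S X A) : EvM d (mt v A) := by
  intro i j hij
  have h1 := P.mt_comm hA hd P.odd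
  rw [mt_oddP hd] at h1
  have h2 := congrFun (congrFun h1 i) j
  rw [pd, Matrix.mul_diagonal, Matrix.diagonal_mul, mul_comm] at h2
  have h3 := mul_right_cancel₀ hij h2
  by_contra hne
  split_ifs at h3 with h4 h5 h5
  · omega
  · exact one_ne_zero h3
  · exact one_ne_zero h3.symm
  · omega

lemma ann_iff {R : Sys V} {n : ℕ} {w : Module.Basis (Fin n) V.K (V.H X)}
    (M : Matrix (Fin n) (Fin n) V.K) :
    M ∈ Ann (Cs R w) ↔ KillsW R X (Matrix.toLin w w M) := by
  have h : mt w (Matrix.toLin w w M) = M := LinearMap.toMatrix_toLin w w M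
  rw [KillsW, ← mem_Ann_Cs (v := w), h]
  rfl

end gen

section main

variable {T : HodgeTheory ops} {L : Type} [Field L] [Algebra T.W.K L] [Algebra L ℂ]
  {X Y Z : 𝒱.Obj}

lemma tower_inst (T : HodgeTheory ops) (L : Type) [Field L] [Algebra T.W.K L] [Algebra L ℂ] :
    IsScalarTower T.W.K L ℂ := by
  refine IsScalarTower.of_algebraMap_eq fun r => ?_
  obtain ⟨q, rfl⟩ := T.rat r
  rw [map_ratCast, map_ratCast, map_ratCast]

lemma charZero_L (T : HodgeTheory ops) (L : Type) [Field L] [Algebra T.W.K L] [Algebra L ℂ] :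
    CharZero (baseW T.W L).K := by
  have h : CharZero L := (algebraMap L ℂ).charZero
  exact h

variable {Q : ClassPred T.W} (P : PolData T Q.sys X) (𝔞 : LieAct.{u, 0, w} (baseW T.W L))

lemma vL_gr {n : ℕ} {v : Module.Basis (Fin n) T.W.K (T.W.H X)} {d : Fin n → ℕ}
    (hd : ∀ b, v b ∈ T.W.gr X (d b)) (b : Fin n) : vL L v b ∈ (baseW T.W L).gr X (d b) := by
  rw [vL_apply]
  exact em_gr (hd b)

/-- the tensors of the classes killed by the operators -/
noncomputable def CsR (𝔞 : LieAct.{u, 0, w} (baseW T.W L)) {n : ℕ}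
    (v : Module.Basis (Fin n) T.W.K (T.W.H X)) (l : ℕ) : Submodule L ((Fin l → Fin n) → L) :=
  Cs 𝔞.pred.sys (vL L v) l

variable {𝔞}

/-- The criterion in coordinates. -/
lemma kill_coord {n : ℕ} (v : Module.Basis (Fin n) T.W.K (T.W.H X))
    (hinf : ∀ A : Module.End (baseW T.W L).K ((baseW T.W L).H X),
      KillsW (bcPred L Q).sys X A → KillsW 𝔞.pred.sys X A)
    {M : Matrix (Fin n) (Fin n) L} (hM : M ∈ Ann fun l => mpS L (Cs Q.sys v l)) :
    M ∈ Ann (CsR 𝔞 v) := by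
  have := tower_inst T L
  have h1 : M ∈ Ann (CsL L Q.sys v) := by
    have h2 : (fun l => mpS L (Cs Q.sys v l)) = CsL L Q.sys v :=
      funext fun l => (Cs_base l).symm
    rw [← h2]
    exact hM
  have h3 : KillsW (bcPred L Q).sys X (Matrix.toLin (vL L v) (vL L v) M) := by
    rw [bcPred_sys]
    exact (ann_iff (V := baseW T.W L) M).1 h1
  exact (ann_iff (V := baseW T.W L) M).2 (hinf _ h3)

include P in
open scoped ComplexOrder in
/-- **The bound.** -/
theorem PolData.bound_L (hinf : ∀ A : Module.End (baseW T.W L).K ((baseW T.W L).H X),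
      KillsW (bcPred L Q).sys X A → KillsW 𝔞.pred.sys X A) :
    ∃ c : ℝ, 0 < c ∧ ∀ m, c * dimBy (baseW T.W L) 𝔞.pred.P (pw X (2 * m + 1)) ≤
      dimBy (baseW T.W L) (bcPred L Q).P (pw X (2 * m + 1)) := by
  have := charZero_K T
  have := tower_inst T L
  obtain ⟨n, v, d, hd⟩ := exists_homog_basis T.W X
  obtain ⟨c, hc, h⟩ := (P.rsys hd).boundC (C := cM v) (κ := (qM v P.uu)⁻¹) (real_K T) P.q_kap
    (posDef_of_pol P.pol) (fun m F hF => cM_fix v (P.Cs_le m hF)) (kap_mem hd P.mem P.q_kap)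
    (fun l => upS (CsR 𝔞 v l)) (by
      intro M hM l F hF
      have hM' : Kills (Cs Q.sys v) M := hM
      have hann : ∀ l : ℂ →ₗ[L] L, dnM l M ∈ Ann (CsR 𝔞 v) := fun l =>
        kill_coord v hinf (hM'.dn l)
      refine Submodule.span_induction (p := fun F _ => (dM l M).mulVec F = 0) ?_ ?_ ?_ ?_ hF
      · rintro _ ⟨G, hG, rfl⟩
        exact kill_of_Ann hann hG
      · exact Matrix.mulVec_zero _
      · intro x y _ _ hx hy; rw [Matrix.mulVec_add, hx, hy, add_zero]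
      · intro a x _ hx; rw [Matrix.mulVec_smul, hx, smul_zero])
  refine ⟨c, hc, fun m => ?_⟩
  have h1 := h (m + 1)
  have e1 : Module.finrank ℂ (upS (CsR 𝔞 v (2 * (m + 1)))) =
      dimBy (baseW T.W L) 𝔞.pred.P (pw X (2 * m + 1)) := by
    rw [finrank_upS]
    exact finrank_Cs (v := vL L v) (S := 𝔞.pred.sys) (m := 2 * m + 1)
  have e2 : Module.finrank T.W.K ((P.rsys hd).C (2 * (m + 1))) =
      dimBy (baseW T.W L) (bcPred L Q).P (pw X (2 * m + 1)) := by
    rw [bcPred_dim]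
    exact finrank_Cs (v := v) (S := Q.sys) (m := 2 * m + 1)
  rw [e1, e2] at h1
  exact h1

lemma killsW_of_ann {n : ℕ} {v : Module.Basis (Fin n) T.W.K (T.W.H X)}
    {M : Matrix (Fin n) (Fin n) L} (hM : M ∈ Ann fun l => mpS L (Cs Q.sys v l)) :
    KillsW (bcPred L Q).sys X (Matrix.toLin (vL L v) (vL L v) M) := by
  have := tower_inst T L
  have h1 : M ∈ Ann (CsL L Q.sys v) := by
    have h2 : (fun l => mpS L (Cs Q.sys v l)) = CsL L Q.sys v :=
      funext fun l => (Cs_base l).symm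
    rw [← h2]
    exact hM
  rw [bcPred_sys]
  exact (ann_iff (V := baseW T.W L) M).1 h1

lemma ann_of_killsW {n : ℕ} {v : Module.Basis (Fin n) T.W.K (T.W.H X)}
    {A : Module.End (baseW T.W L).K ((baseW T.W L).H X)} (hA : KillsW (bcPred L Q).sys X A) :
    (show Matrix (Fin n) (Fin n) L from mt (vL L v) A) ∈ Ann fun l => mpS L (Cs Q.sys v l) := by
  have := tower_inst T L
  have h2 : (fun l => mpS L (Cs Q.sys v l)) = CsL L Q.sys v :=
    funext fun l => (Cs_base l).symm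
  rw [h2]
  rw [bcPred_sys] at hA
  exact (mem_Ann_Cs (W := baseW T.W L) (v := vL L v)).2 hA

include P in
open scoped ComplexOrder in
/-- **The criterion on the fourth power.** -/
theorem PolData.kill_of_four_L
    (hQ : ∀ {Z : 𝒱.Obj} {j : ℕ} {c : T.W.H Z}, Q.P Z j c → ∀ a, 𝔞.op a Z (em T.W L c) = 0)
    (hss : 𝔞.Semi (X.prod X))
    (h4 : ∀ A : Module.End (baseW T.W L).K ((baseW T.W L).H X), KillsW (bcPred L Q).sys X A →
      ∀ c ∈ 𝔞.pred.sys.C (pw X 3), derOp A 3 c = 0)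
    (hZ : ∀ A : Module.End (baseW T.W L).K ((baseW T.W L).H X), KillsW (bcPred L Q).sys X A →
      A ∈ 𝔞.pred.sys.Op X X → (∀ φ ∈ 𝔞.pred.sys.Op X X, A * φ = φ * A) →
      KillsW 𝔞.pred.sys X A)
    {A : Module.End (baseW T.W L).K ((baseW T.W L).H X)} (hA : KillsW (bcPred L Q).sys X A) :
    KillsW 𝔞.pred.sys X A := by
  have := charZero_K T
  have hL0 := charZero_L T L
  have := tower_inst T L
  obtain ⟨n, v, d, hd⟩ := exists_homog_basis T.W X
  have hdL := vL_gr (L := L) hd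
  have hpos := posDef_of_pol (v := v) P.pol
  have hMu : IsUnit ((cM v)ᵀ * upM (qM v P.uu)).det :=
    (Matrix.isUnit_iff_isUnit_det _).1 hpos.isUnit
  have hCu : IsUnit (cM v).det := by
    rw [Matrix.det_mul, Matrix.det_transpose] at hMu
    exact isUnit_of_mul_isUnit_left hMu
  have hle : ∀ {Z : 𝒱.Obj} {j : ℕ} {c : (baseW T.W L).H Z}, (bcPred L Q).P Z j c →
      𝔞.pred.P Z j c := fun hc =>
    bcPred_le (R := 𝔞.pred) (fun h => ⟨em_gr (Q.gr h), hQ h⟩) hc
  have hleS : ∀ Z, (Q.sys.base L).C Z ≤ 𝔞.pred.sys.C Z := by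
    intro Z
    rw [← bcPred_sys]
    exact ClassPred.sys_le hle Z
  set Sg : Set (Matrix (Fin n) (Fin n) L) := 𝔞.mats (vL L v) with hSg
  have hRT : CsR 𝔞 v = RT Sg d := funext fun l => 𝔞.Cs_pred hdL l
  have hmt : ∀ M : Matrix (Fin n) (Fin n) L,
      mt (vL L v) (Matrix.toLin (vL L v) (vL L v) M) = M := fun M =>
    LinearMap.toMatrix_toLin (vL L v) (vL L v) M
  set N := P.ndat.base (L := L) with hN
  have hκ : (qM (vL L v) N.uu)⁻¹ = ((qM v P.uu)⁻¹).map (algebraMap T.W.K L) :=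
    kap_base P.q_kap
  have hop : ∀ Y : Matrix (Fin n) (Fin n) L,
      t2 (Y * ((qM v P.uu)⁻¹).map (algebraMap T.W.K L)) ∈ RT Sg d 2 ↔
        Matrix.toLin (vL L v) (vL L v) Y ∈ 𝔞.pred.sys.Op X X := by
    intro Y
    rw [← N.op_iff hleS hdL, hmt, hκ, ← hRT]
    rfl
  have h := larsenT (C := cM v) (C' := (cM v)⁻¹) (q := qM v P.uu) (κ := (qM v P.uu)⁻¹)
    (𝒜 := Cs Q.sys v) (real_K T) (Matrix.nonsing_inv_mul _ hCu)
    (fun l F hF => cM_fix v (P.Cs_le l hF)) P.q_kap (kap_mem hd P.mem P.q_kap) hpos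
    (Sg := Sg) (p := d)
    (by
      rintro _ ⟨a, rfl⟩
      refine ann_of_killsW ?_
      intro m c hc
      rw [← 𝔞.op_eq]
      exact ((𝔞.mem_iff).1 (ClassPred.sys_le hle _ hc)).2 a)
    (by
      intro l
      rw [← hRT, ← Cs_base]
      exact fun F hF Z f => hleS Z (hF Z f))
    (by
      intro M hM
      have h1 := killsW_of_ann hM
      rw [bcPred_sys] at h1
      have h2 := N.evM hdL h1
      rw [hmt] at h2
      exact h2)
    (fun U hU => 𝔞.semi_coord hss U hU)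
    (by
      intro M hM F hF
      rw [← hRT] at hF
      have h1 := (mem_four (W := baseW T.W L) (v := vL L v) (S := 𝔞.pred.sys) (m := 3)
        (A := Matrix.toLin (vL L v) (vL L v) M)).2 (h4 _ (killsW_of_ann hM))
      rw [hmt] at h1
      exact h1 F hF)
    (by
      intro Y hY hYz hYc
      rw [← hRT]
      refine (ann_iff (V := baseW T.W L) Y).2 (hZ _ (killsW_of_ann hY) ((hop Y).1 hYz) ?_)
      intro φ hφ
      apply mt_inj (v := vL L v)
      rw [mt_mul, mt_mul, hmt]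
      refine hYc _ ((hop _).2 ?_)
      have e : Matrix.toLin (vL L v) (vL L v) (mt (vL L v) φ) = φ := Matrix.toLin_toMatrix _ _ φ
      rw [e]
      exact hφ)
  have h2 := h (ann_of_killsW hA)
  rw [← hRT] at h2
  exact (mem_Ann_Cs (W := baseW T.W L) (v := vL L v)).1 h2

end main

end Pool.Agent.Q67.TG
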