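import Pool.Agent.Q67.TL.MasterT

/-!
# The index of the classes killed by a Lie algebra: the criteria
-/

set_option autoImplicit false
set_option linter.unusedSectionVars false

open CategoryTheory AlgebraicGeometry TensorProduct

universe u v w

namespace Pool.Agent.Q67.TG

open Pool.Agent.H914 Pool.Agent.H914.VarClass Pool.Agent.H914.VarClass.Obj
  Pool.Agent.H914.WeilCohomology
open Pool.Agent.Y133.Half hiding prj extOp_xp
open Pool.Agent.Q67.Det Pool.Agent.Q67.TK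
open Pool.Agent.Y121.AH
open scoped Matrix

variable {k : Type u} [Field k] {𝒱 : VarClass k} {ops : CycleOps 𝒱}
variable {T : HodgeTheory ops} {L : Type} [Field L] [Algebra T.W.K L] [Algebra L ℂ]
  {X Y Z : 𝒱.Obj} {Q : ClassPred T.W}

/-- **The finiteness criteria for the index of the classes killed by a Lie algebra.** -/
theorem masterL (P : PolData T Q.sys X) [Nontrivial (T.W.H X)] (𝔞 : LieAct.{u, 0, w} (baseW T.W L))
    (hQ : ∀ {Z : 𝒱.Obj} {j : ℕ} {c : T.W.H Z}, Q.P Z j c → ∀ a, 𝔞.op a Z (em T.W L c) = 0)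
    (hss : 𝔞.Semi (X.prod X)) :
    ∃ N : ℕ∞, 1 ≤ N ∧
      HasIndex (fun n => dimBy (baseW T.W L) 𝔞.pred.P (pw X n))
        (fun n => dimBy T.W Q.P (pw X n)) N ∧
      (N = 1 ↔ ∀ n j c, 𝔞.pred.P (pw X n) j c → (bcPred L Q).P (pw X n) j c) ∧
      (N ≠ 1 → AtMostHalf (fun n => dimBy T.W Q.P (pw X n))
        (fun n => dimBy (baseW T.W L) 𝔞.pred.P (pw X n))) ∧
      (N ≠ ⊤ → GeneratedOver (baseW T.W L) (bcPred L Q).P 𝔞.pred.P X N) ∧
      (N ≠ ⊤ ↔ ∀ A : Module.End (baseW T.W L).K ((baseW T.W L).H X),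
        KillsW (bcPred L Q).sys X A → KillsW 𝔞.pred.sys X A) ∧
      (N ≠ ⊤ ↔ (∀ A : Module.End (baseW T.W L).K ((baseW T.W L).H X),
          KillsW (bcPred L Q).sys X A → ∀ c ∈ 𝔞.pred.sys.C (pw X 3), derOp A 3 c = 0) ∧
        (∀ A : Module.End (baseW T.W L).K ((baseW T.W L).H X), KillsW (bcPred L Q).sys X A →
          A ∈ 𝔞.pred.sys.Op X X → (∀ φ ∈ 𝔞.pred.sys.Op X X, A * φ = φ * A) →
          KillsW 𝔞.pred.sys X A)) := by
  have := charZero_K T
  have hL0 := charZero_L T L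
  have hnt : Nontrivial ((baseW T.W L).H X) := Pool.Agent.Y129.nontrivial_base L
  have hle : ∀ {Z : 𝒱.Obj} {j : ℕ} {c : (baseW T.W L).H Z}, (bcPred L Q).P Z j c →
      𝔞.pred.P Z j c := fun hc =>
    bcPred_le (R := 𝔞.pred) (fun h => ⟨em_gr (Q.gr h), hQ h⟩) hc
  have hnd : ∀ n, (bcPred L Q).sys.Nondeg (pw X n) := by
    intro n
    rw [bcPred_sys]
    exact (P.nondeg_pw n).base L
  obtain ⟨N, M, h1, -, hN, -, -, hN1, -, hhalf, -, hgen, -⟩ :=
    (bcPred L Q).tower 𝔞.pred hle X hnd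
  have hd : (fun n => dimBy (baseW T.W L) (bcPred L Q).P (pw X n)) =
      fun n => dimBy T.W Q.P (pw X n) := funext fun n => bcPred_dim _
  have hinf : N ≠ ⊤ ↔ ∀ A : Module.End (baseW T.W L).K ((baseW T.W L).H X),
      KillsW (bcPred L Q).sys X A → KillsW 𝔞.pred.sys X A := by
    constructor
    · intro h A hA
      have h2 : NDat (baseW T.W L) (bcPred L Q).sys X := by
        rw [bcPred_sys]
        exact P.ndat.base
      exact kill_of_generated' h2 (hgen h) hA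
    · intro h
      obtain ⟨c, hc, hb⟩ := P.bound_L h
      exact ne_top_of_bound hN (fun n => (bcPred L Q).sys.finrank_pos_pw n) hc hb
  rw [hd] at hN hhalf
  refine ⟨N, h1, hN, hN1, hhalf, hgen, hinf, hinf.trans ?_⟩
  constructor
  · intro h
    exact ⟨fun A hA => h A hA 3, fun A hA _ _ => h A hA⟩
  · rintro ⟨h4, hZ⟩ A hA
    exact P.kill_of_four_L hQ hss h4 hZ hA

end Pool.Agent.Q67.TG
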