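import Pool.Agent.Q67.TL.MMT

/-!
# The classes which are Hodge classes and are killed by a Lie algebra: the zero-one law
-/

set_option autoImplicit false
set_option linter.unusedSectionVars false

open CategoryTheory AlgebraicGeometry TensorProduct Filter Topology

open scoped ENNReal

universe u v w

namespace Pool.Agent.Q67.TG

open Pool.Agent.H914 Pool.Agent.H914.VarClass Pool.Agent.H914.VarClass.Obj
  Pool.Agent.H914.WeilCohomology
open Pool.Agent.Y133.Half hiding prj extOp_xp
open Pool.Agent.Q67.Det Pool.Agent.Q67.TK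
open Pool.Agent.Y121.AH
open scoped Matrix

variable {k : Type u} [Field k] {𝒱 : VarClass k} {ops : CycleOps 𝒱}

section tensors

variable {K L B : Type} [Field K] [Field L] [Algebra K L] [Fintype B] [DecidableEq B]

lemma fn_dM' (l : L →ₗ[K] K) (n : ℕ) (M : Matrix B B L) (F : (Fin n → B) → K) :
    (dM n (M.map l)).mulVec F = fun I => l ((dM n M).mulVec (mp L F) I) := by
  funext I
  simp only [dM_mulVec, map_sum, Matrix.map_apply, mp]
  refine Finset.sum_congr rfl fun k _ => Finset.sum_congr rfl fun c _ => ?_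
  rw [mul_comm (M _ _), ← Algebra.smul_def, map_smul, smul_eq_mul, mul_comm]

/-- The components of a matrix which kills the tensors. -/
lemma ann_map {𝒜 : ∀ n, Submodule K ((Fin n → B) → K)} {M : Matrix B B L}
    (hM : M ∈ Ann fun n => mpS L (𝒜 n)) (l : L →ₗ[K] K) : M.map l ∈ Ann 𝒜 := by
  intro n F hF
  rw [fn_dM']
  have h1 : (dM n M).mulVec (mp L F) = 0 := hM n _ (Submodule.subset_span ⟨F, hF, rfl⟩)
  funext I
  rw [h1]
  exact map_zero l

lemma kill_of_ann_map {𝒜 : ∀ n, Submodule K ((Fin n → B) → K)} {M : Matrix B B L}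
    (hM : M ∈ Ann fun n => mpS L (𝒜 n)) {n : ℕ} {F : (Fin n → B) → K}
    (hF : ∀ A ∈ Ann 𝒜, (dM n A).mulVec F = 0) : (dM n M).mulVec (mp L F) = 0 := by
  funext I
  refine (Module.forall_dual_apply_eq_zero_iff K _).1 fun l => ?_
  have h1 := congrFun (hF _ (ann_map hM l)) I
  rw [fn_dM'] at h1
  exact h1

end tensors

section corr

variable {V : WeilCohomology.{u, v} ops} {X Y Z : 𝒱.Obj}

/-- A derivation acts on correspondences. -/
lemma LieAct.corr_op (𝔞 : LieAct.{u, v, w} V) (a : 𝔞.ι) (z : V.H (X.prod Y)) (x : V.H X) :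
    𝔞.op a Y (V.corr z x) = V.corr (𝔞.op a (X.prod Y) z) x + V.corr z (𝔞.op a X x) := by
  have h1 : ∀ z x, V.corr z x = V.push (snd X Y) (z * V.map (fst X Y) x) := fun _ _ => rfl
  rw [h1, h1, h1, 𝔞.push, 𝔞.mul, 𝔞.map, map_add]

/-- Every operator is given by a class. -/
lemma corr_surj (φ : Module.End V.K (V.H X)) : ∃ z : V.H (X.prod X), V.corr z = φ := by
  obtain ⟨n, v, d, hd⟩ := exists_homog_basis V X
  set L : V.H (X.prod X) →ₗ[V.K] Module.End V.K (V.H X) :=
    { toFun := fun z => V.corr z
      map_add' := fun a b => corr_add _ _ _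
      map_smul' := fun r a => corr_smul _ _ _ } with hL
  have hinj : Function.Injective L := fun a b h => corr_ext h
  have hf : FiniteDimensional V.K (V.H X) := Module.Finite.of_basis v
  have e1 : Module.finrank V.K (V.H (X.prod X)) = n ^ 2 := by
    refine (LinearEquiv.finrank_eq (PPe v 1)).symm.trans ?_
    rw [Module.finrank_fintype_fun_eq_card, Fintype.card_fun, Fintype.card_fin, Fintype.card_fin]
  have e2 : Module.finrank V.K (Module.End V.K (V.H X)) = n ^ 2 := by
    rw [Module.finrank_linearMap, Module.finrank_eq_card_basis v, Fintype.card_fin, pow_two]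
  have hf2 : FiniteDimensional V.K (V.H (X.prod X)) := Module.Finite.equiv (PPe v 1)
  exact ((LinearMap.injective_iff_surjective_of_finrank_eq_finrank (e1.trans e2.symm)).1 hinj) φ

end corr

end Pool.Agent.Q67.TG
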