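import Pool.Agent.Q67.TL.ZO
import Pool.Agent.Q69.ZO.Hodge

/-!
# The classes which are Hodge classes and are killed by a Lie algebra: the zero-one law, part two
-/

set_option autoImplicit false
set_option linter.unusedSectionVars false

open CategoryTheory AlgebraicGeometry TensorProduct Filter Topology

open scoped ENNReal

universe u v w

namespace Pool.Agent.Q67.TG

open Pool.Agent.H914 Pool.Agent.H914.VarClass Pool.Agent.H914.VarClass.Obj
  Pool.Agent.H914.WeilCohomology
open Pool.Agent.Y133.Half hiding prj extOp_xp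
open Pool.Agent.Q67.Det Pool.Agent.Q67.TK
open Pool.Agent.Y121.AH
open scoped Matrix

variable {k : Type u} [Field k] {𝒱 : VarClass k} {ops : CycleOps 𝒱}

section tensors

variable {K L : Type} [Field K] [Field L] [Algebra K L]

/-- The components of a combination of elements of `V`. -/
lemma comp_mpS {S : Type} {V : Submodule K (S → K)} {F : S → L} (hF : F ∈ mpS L V)
    (l : L →ₗ[K] K) : (fun I => l (F I)) ∈ V := by
  have key : ∀ F, F ∈ mpS L V → ∀ l : L →ₗ[K] K, (fun I => l (F I)) ∈ V := by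
    intro F hF
    unfold mpS at hF
    induction hF using Submodule.span_induction with
    | mem x hx =>
      obtain ⟨G, hG, rfl⟩ := hx
      intro l
      have h1 : (fun I => l (mp L G I)) = l 1 • G := by
        funext I
        simp only [mp, Pi.smul_apply, smul_eq_mul]
        rw [Algebra.algebraMap_eq_smul_one, map_smul, smul_eq_mul, mul_comm]
      rw [h1]
      exact Submodule.smul_mem _ _ hG
    | zero =>
      intro l
      have h1 : (fun I : S => l ((0 : S → L) I)) = 0 := by
        funext I; exact map_zero l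
      rw [h1]; exact Submodule.zero_mem _
    | add x y _ _ hx hy =>
      intro l
      have h1 : (fun I : S => l ((x + y) I)) = (fun I => l (x I)) + fun I => l (y I) := by
        funext I; exact map_add l _ _
      rw [h1]; exact Submodule.add_mem _ (hx l) (hy l)
    | smul r x _ hx =>
      intro l
      exact hx (l ∘ₗ LinearMap.mulLeft K r)
  exact key F hF l

end tensors

section both

variable {T : HodgeTheory ops} {L : Type} [Field L] [Algebra T.W.K L]
  {X Y Z : 𝒱.Obj} (𝔞 : LieAct.{u, 0, w} (baseW T.W L))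

/-- The classes which are Hodge classes and are killed by the operators. -/
def bothP : ClassPred T.W where
  P Z j c := (hodgePred T).P Z j c ∧ ∀ a, 𝔞.op a Z (em T.W L c) = 0
  gr h := (hodgePred T).gr h.1
  zero := ⟨(hodgePred T).zero, fun a => by rw [em_zero, map_zero]⟩
  add ha hb := ⟨(hodgePred T).add ha.1 hb.1, fun a => by
    rw [em_add, map_add, ha.2, hb.2, add_zero]⟩
  smul r _ h := ⟨(hodgePred T).smul r h.1, fun a => by rw [em_smul, map_smul, h.2, smul_zero]⟩
  cl hz := ⟨(hodgePred T).cl hz, fun a => 𝔞.cl a hz⟩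
  mul ha hb := ⟨(hodgePred T).mul ha.1 hb.1, fun a => by
    rw [em_mul, 𝔞.mul, ha.2, hb.2, zero_mul, mul_zero, add_zero]⟩
  map f _ _ h := ⟨(hodgePred T).map f h.1, fun a => by
    rw [← em_map, 𝔞.map, h.2, map_zero]⟩
  push f _ _ hl _ h := ⟨(hodgePred T).push f hl h.1, fun a => by
    rw [← em_push, 𝔞.push, h.2, map_zero]⟩

variable {𝔞}

lemma both_iff {c : T.W.H Z} : c ∈ (bothP 𝔞).sys.C Z ↔
    c ∈ (hodgeSys T).C Z ∧ ∀ a, 𝔞.op a Z (em T.W L c) = 0 := by
  constructor
  · intro hc
    refine ⟨ClassPred.sys_le (Q := bothP 𝔞) (R := hodgePred T) (fun h => h.1) _ hc, fun a => ?_⟩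
    refine ClassPred.sp_ind (Q := bothP 𝔞) (q := fun c => 𝔞.op a Z (em T.W L c) = 0)
      ?_ ?_ ?_ hc
    · intro j x hx; exact hx.2 a
    · rw [em_zero, map_zero]
    · intro x y hx hy; rw [em_add, map_add, hx, hy, add_zero]
  · rintro ⟨h1, h2⟩
    have h4 := congrArg (fun f : Module.End T.W.K (T.W.H Z) => f c)
      (sum_proj (T.W.isInternal Z) (N := 2 * Z.dim + 1) fun i hi => T.W.gr_eq_bot Z i (by omega))
    simp only [LinearMap.sum_apply, Module.End.one_apply] at h4
    rw [← h4]
    have hpr : ∀ i, em T.W L (proj (T.W.isInternal Z) i c) =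
        proj ((baseW T.W L).isInternal Z) i (em T.W L c) := by
      intro i
      refine gr_induction (T.W.isInternal Z) (p := fun x => em T.W L (proj (T.W.isInternal Z) i x) =
        proj ((baseW T.W L).isInternal Z) i (em T.W L x)) ?_ ?_ c
      · intro j c hc
        by_cases hij : j = i
        · subst hij
          rw [proj_same _ hc, proj_same _ (em_gr hc)]
        · rw [proj_ne _ hc hij, proj_ne _ (em_gr hc) hij, em_zero]
      · intro x y hx hy
        rw [map_add, em_add, em_add, map_add, hx, hy]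
    refine Submodule.sum_mem _ fun i _ => ?_
    rcases Nat.mod_two_eq_zero_or_one i with hi | hi
    · obtain ⟨j, rfl⟩ : ∃ j, i = 2 * j := ⟨i / 2, by omega⟩
      refine ClassPred.sp_of (Q := bothP 𝔞) (j := j)
        ⟨ClassPred.sp_proj (Q := hodgePred T) h1 j, fun a => ?_⟩
      rw [hpr, 𝔞.proj_op, h2, map_zero]
    · have h5 : proj (T.W.isInternal Z) i c = 0 := by
        have h6 : c ∈ PH T.W Z 0 := (hodgeSys T).even h1
        refine PH.ind (p := fun x => proj (T.W.isInternal Z) i x = 0) ?_ ?_ ?_ h6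
        · intro j hj x hx
          exact proj_ne _ hx (by omega)
        · exact map_zero _
        · intro x y hx hy; rw [map_add, hx, hy, add_zero]
      rw [h5]
      exact Submodule.zero_mem _

lemma both_hodge {j : ℕ} {c : T.W.H Z} (h : (bothP 𝔞).P Z j c) : (hodgePred T).P Z j c := h.1

lemma both_kill {j : ℕ} {c : T.W.H Z} (h : (bothP 𝔞).P Z j c) (a : 𝔞.ι) :
    𝔞.op a Z (em T.W L c) = 0 := h.2 a

/-- The projector onto the cohomology of odd degree. -/
lemma odd_both (X : 𝒱.Obj) : oddP T.W X ∈ (bothP 𝔞).sys.Op X X := by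
  have hch := charZero_K T
  obtain ⟨h⟩ := Pool.Agent.Q69.ZO.oddIn_hodge T X
  obtain ⟨z, hz, hφ⟩ := Sys.mem_Op.1 h
  refine Sys.mem_Op.2 ⟨z, both_iff.2 ⟨hz, fun a => ?_⟩, hφ⟩
  refine corr_ext ?_
  have h5 : (baseW T.W L).corr (0 : (baseW T.W L).H (X.prod X)) = 0 := corr_zero _
  rw [h5]
  have h1 : (baseW T.W L).corr (em T.W L z) = bcE L (T.W.corr z) :=
    corrOp_base (L := L) (T.W.map (fst X X)) (T.W.push (snd X X)) z
  have hE : ∀ {i : ℕ} {x : (baseW T.W L).H X}, x ∈ (baseW T.W L).gr X i →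
      bcE L (oddP T.W X) x = if i % 2 = 1 then x else 0 := by
    intro i x hx
    have h2 : x ∈ Submodule.span (baseW T.W L).K (em T.W L '' (T.W.gr X i : Set (T.W.H X))) := by
      have h3 : x ∈ (T.W.gr X i).baseChange L := hx
      rw [Submodule.baseChange_eq_span] at h3
      exact h3
    split_ifs with hi
    · have h3 : Submodule.span (baseW T.W L).K (em T.W L '' (T.W.gr X i : Set (T.W.H X))) ≤
          LinearMap.ker (bcE L (oddP T.W X) - 1) := by
        refine Submodule.span_le.2 ?_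
        rintro _ ⟨y, hy, rfl⟩
        change (bcE L (oddP T.W X) - 1) (em T.W L y) = 0
        rw [LinearMap.sub_apply, bcE_em, oddP_apply (PH.of hy), if_pos hi]
        exact sub_self _
      have h4 := h3 h2
      rw [LinearMap.mem_ker, LinearMap.sub_apply, sub_eq_zero] at h4
      exact h4
    · have h3 : Submodule.span (baseW T.W L).K (em T.W L '' (T.W.gr X i : Set (T.W.H X))) ≤
          LinearMap.ker (bcE L (oddP T.W X)) := by
        refine Submodule.span_le.2 ?_
        rintro _ ⟨y, hy, rfl⟩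
        change bcE L (oddP T.W X) (em T.W L y) = 0
        rw [bcE_em, oddP_apply (PH.of hy), if_neg hi, em_zero]
      exact h3 h2
  refine LinearMap.ext fun x => ?_
  rw [LinearMap.zero_apply]
  refine gr_induction ((baseW T.W L).isInternal X)
    (p := fun x => (baseW T.W L).corr (𝔞.op a (X.prod X) (em T.W L z)) x = 0) ?_ ?_ x
  · intro i x hx
    have h2 := 𝔞.corr_op a (em T.W L z) x
    rw [h1, hφ, hE hx, hE (𝔞.gr a hx)] at h2
    split_ifs at h2 with hi
    · exact add_eq_right.1 h2.symm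
    · rw [map_zero, add_zero] at h2
      exact h2.symm
  · intro x y hx hy
    rw [map_add, hx, hy, add_zero]

end both

section main

variable {T : HodgeTheory ops} {L : Type} [Field L] [Algebra T.W.K L] [Algebra L ℂ]
  {X Y Z : 𝒱.Obj} {𝔞 : LieAct.{u, 0, w} (baseW T.W L)}

/-- **The killed classes are combinations of classes which are Hodge classes and killed**, if the
operators which kill the latter kill the former. -/
theorem killed_le_both
    (h : ∀ A : Module.End (baseW T.W L).K ((baseW T.W L).H X),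
      KillsW (bcPred L (bothP 𝔞)).sys X A → KillsW 𝔞.pred.sys X A)
    {m j : ℕ} {c : (baseW T.W L).H (pw X m)} (hc : 𝔞.pred.P (pw X m) j c) :
    (bcPred L (bothP 𝔞)).P (pw X m) j c := by
  have := charZero_K T
  have := tower_inst T L
  refine ⟨?_, hc.1⟩
  have h0 := (killed_le_hodge (fun h => both_hodge h) h hc).1
  obtain ⟨n, v, d, hd⟩ := exists_homog_basis T.W X
  obtain ⟨F, rfl⟩ := PP_surj (vL L v) c
  have h1 : (show (Fin (m + 1) → Fin n) → (baseW T.W L).K from F) ∈
      Cs 𝔞.pred.sys (vL L v) (m + 1) :=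
    mem_Cs_succ.2 (ClassPred.sp_of (Q := 𝔞.pred) hc)
  have h0' : (show (Fin (m + 1) → Fin n) → L from F) ∈ CsL L (hodgeSys T) v (m + 1) :=
    mem_CsL.2 (mem_Cs_succ.2 h0)
  rw [Cs_base] at h0'
  have h2 : (show (Fin (m + 1) → Fin n) → L from F) ∈
      CsL L (bothP 𝔞).sys v (m + 1) := by
    rw [Cs_base]
    refine mem_mpS_of fun l => ?_
    refine mem_Cs_succ.2 (both_iff.2 ⟨mem_Cs_succ.1 (comp_mpS h0' l), fun a => ?_⟩)
    have hM : mt (vL L v) (𝔞.op a X) ∈ Ann fun l => mpS L (Cs (bothP 𝔞).sys v l) := by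
      intro l G hG
      have h4 : mpS L (Cs (bothP 𝔞).sys v l) ≤ LinearMap.ker
          (Matrix.mulVecLin (dM l (mt (vL L v) (𝔞.op a X)))) := by
        refine Submodule.span_le.2 ?_
        rintro _ ⟨G, hG, rfl⟩
        change (dM l (mt (vL L v) (𝔞.op a X))).mulVec (mp L G) = 0
        cases l with
        | zero =>
          funext I
          refine (dM_mulVec (R := L) 0 (mt (vL L v) (𝔞.op a X)) (mp L G) I).trans ?_
          exact Finset.sum_eq_zero fun k _ => k.elim0
        | succ l =>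
          have h5 := (both_iff.1 (mem_Cs_succ.1 hG)).2 a
          rw [𝔞.op_eq, em_PPL] at h5
          have h6 := derOp_PP (W := baseW T.W L) (vL L v) (𝔞.op a X) (mpL L G)
          exact PP_inj (vL L v) ((h6.symm.trans h5).trans (PP_zero _).symm)
      exact h4 hG
    have hK : ∀ A ∈ Ann (Cs (bothP 𝔞).sys v),
        (dM (m + 1) A).mulVec (fun I => l ((show (Fin (m + 1) → Fin n) → L from F) I)) = 0 := by
      intro A hA
      refine (fn_dM l (m + 1) A (show (Fin (m + 1) → Fin n) → L from F)).trans ?_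
      have h3 : A.map (algebraMap T.W.K L) ∈ Ann fun l => mpS L (Cs (bothP 𝔞).sys v l) := by
        intro l G hG
        have h4 : mpS L (Cs (bothP 𝔞).sys v l) ≤ LinearMap.ker
            (Matrix.mulVecLin (dM l (A.map (algebraMap T.W.K L)))) := by
          refine Submodule.span_le.2 ?_
          rintro _ ⟨G, hG, rfl⟩
          change (dM l (A.map (algebraMap T.W.K L))).mulVec (mp L G) = 0
          rw [← mp_dM, hA l G hG]
          funext I
          exact map_zero _
        exact h4 hG
      have h4 := (mem_Ann_Cs (W := baseW T.W L) (v := vL L v)).2 (h _ (killsW_of_ann h3))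
        (m + 1) _ h1
      have hmt : ∀ M : Matrix (Fin n) (Fin n) L,
        mt (vL L v) (Matrix.toLin (vL L v) (vL L v) M) = M := fun M =>
        LinearMap.toMatrix_toLin (vL L v) (vL L v) M
      rw [hmt] at h4
      funext I
      have h6 := congrFun h4 I
      refine (congrArg l h6).trans (map_zero l)
    have h7 := kill_of_ann_map hM hK
    rw [𝔞.op_eq, em_PPL]
    refine (derOp_PP (W := baseW T.W L) (vL L v) (𝔞.op a X) (mpL L _)).trans ?_
    refine (congrArg (PP (vL L v) (Det.prj X m)) h7).trans (PP_zero _)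
  exact mem_Cs_succ.1 (mem_CsL.1 h2)

/-- **Hodge classes are killed**, if the operators which kill the killed Hodge classes kill the
Hodge classes. -/
theorem hodge_le_both
    (h : ∀ A : Module.End (baseW T.W L).K ((baseW T.W L).H X),
      KillsW (bcPred L (bothP 𝔞)).sys X A → KillsW (bcPred L (hodgePred T)).sys X A)
    {m j : ℕ} {c : T.W.H (pw X m)} (hc : (hodgePred T).P (pw X m) j c) :
    (bothP 𝔞).P (pw X m) j c :=
  ⟨hc, (hodge_le_killed (fun h => both_kill h) h (bcPred_of hc)).2⟩

lemma bc_le_of {Q R : ClassPred T.W} {Z : 𝒱.Obj} (h : ∀ j c, Q.P Z j c → R.P Z j c) {j : ℕ}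
    {c : (baseW T.W L).H Z} (hc : (bcPred L Q).P Z j c) : (bcPred L R).P Z j c := by
  refine ⟨?_, hc.2⟩
  have h1 := hc.1
  rw [mem_base] at h1 ⊢
  refine Submodule.span_mono (Set.image_mono ?_) h1
  intro x hx
  refine ClassPred.sp_ind (Q := Q) (q := fun x => x ∈ R.sys.C Z) ?_ ?_ ?_ hx
  · intro j x hx; exact ClassPred.sp_of (Q := R) (h j x hx)
  · exact Submodule.zero_mem _
  · intro a b ha hb; exact Submodule.add_mem _ ha hb

/-- **The zero-one law for the Hodge classes.** -/
theorem zo_hodge (P : PolData T (bothP 𝔞).sys X) [Nontrivial (T.W.H X)] :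
    ∃ N : ℕ∞, LawOf (bcPred L (hodgePred T)) (bothP 𝔞) X N ∧ (N ≠ ⊤ → N = 1) := by
  obtain ⟨N, hN⟩ := masterH L (fun h => both_hodge h) P
  refine ⟨N, hN, fun h => hN.2.2.1.2 fun n j c hc => ?_⟩
  exact bc_le_of (fun j c hc => hodge_le_both (hN.2.2.2.2.2.1.1 h) hc) hc

/-- **The zero-one law for the killed classes.** -/
theorem zo_killed (P : PolData T (bothP 𝔞).sys X) [Nontrivial (T.W.H X)]
    (hss : 𝔞.Semi (X.prod X)) :
    ∃ N : ℕ∞, LawOf 𝔞.pred (bothP 𝔞) X N ∧ (N ≠ ⊤ → N = 1) := by
  obtain ⟨N, hN⟩ := masterL P 𝔞 (fun h => both_kill h) hss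
  have hN' : LawOf 𝔞.pred (bothP 𝔞) X N := hN
  refine ⟨N, hN', fun h => hN'.2.2.1.2 fun n j c hc => ?_⟩
  exact killed_le_both (hN'.2.2.2.2.2.1.1 h) hc

/-- **The zero-one law for the killed classes**, without semisimplicity. -/
theorem zo_killed' (P : PolData T (bothP 𝔞).sys X) [Nontrivial (T.W.H X)] :
    ∃ N : ℕ∞, HasIndex (fun n => dimBy (baseW T.W L) 𝔞.pred.P (pw X n))
        (fun n => dimBy T.W (bothP 𝔞).P (pw X n)) N ∧
      (N = 1 ↔ ∀ n j c, 𝔞.pred.P (pw X n) j c → (bcPred L (bothP 𝔞)).P (pw X n) j c) ∧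
      (N ≠ ⊤ → N = 1) ∧
      (N ≠ ⊤ ↔ ∀ A : Module.End (baseW T.W L).K ((baseW T.W L).H X),
        KillsW (bcPred L (bothP 𝔞)).sys X A → KillsW 𝔞.pred.sys X A) := by
  have := charZero_K T
  have hL0 := charZero_L T L
  have hnt : Nontrivial ((baseW T.W L).H X) := Pool.Agent.Y129.nontrivial_base L
  have hnd : ∀ n, (bcPred L (bothP 𝔞)).sys.Nondeg (pw X n) := by
    intro n
    rw [bcPred_sys]
    exact (P.nondeg_pw n).base L
  have hle : ∀ {Z : 𝒱.Obj} {j : ℕ} {c : (baseW T.W L).H Z}, (bcPred L (bothP 𝔞)).P Z j c →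
      𝔞.pred.P Z j c := fun hc =>
    bcPred_le (R := 𝔞.pred) (fun h => ⟨em_gr ((bothP 𝔞).gr h), fun a => both_kill h a⟩) hc
  obtain ⟨N, M, h1, -, hN, -, -, hN1, -, hhalf, -, hgen, -⟩ :=
    (bcPred L (bothP 𝔞)).tower 𝔞.pred hle X hnd
  have hd : (fun n => dimBy (baseW T.W L) (bcPred L (bothP 𝔞)).P (pw X n)) =
      fun n => dimBy T.W (bothP 𝔞).P (pw X n) := funext fun n => bcPred_dim _
  rw [hd] at hN
  have hA1 : N ≠ ⊤ → ∀ A : Module.End (baseW T.W L).K ((baseW T.W L).H X),
      KillsW (bcPred L (bothP 𝔞)).sys X A → KillsW 𝔞.pred.sys X A := by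
    intro h A hA
    have h2 : NDat (baseW T.W L) (bcPred L (bothP 𝔞)).sys X := by
      rw [bcPred_sys]
      exact P.ndat.base
    exact kill_of_generated' h2 (hgen h) hA
  have hA2 : (∀ A : Module.End (baseW T.W L).K ((baseW T.W L).H X),
      KillsW (bcPred L (bothP 𝔞)).sys X A → KillsW 𝔞.pred.sys X A) → N = 1 := fun h =>
    hN1.2 fun n j c hc => killed_le_both h hc
  refine ⟨N, hN, hN1, fun h => hA2 (hA1 h), ⟨hA1, fun h => ?_⟩⟩
  rw [hA2 h]
  exact ENat.one_ne_top

end main

end Pool.Agent.Q67.TG
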